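import Pool.Agent.H519R3.K0V.Points
import Pool.Agent.Helper834.EC.Dim1

set_option autoImplicit false

open AlgebraicGeometry CategoryTheory Limits Pool.Agent.Helper834.EC

namespace Pool.Agent.H519R3.K0V

section affine

variable (k A : Type) [Field k] [CommRing A] [Algebra k A] [Algebra.FiniteType k A]

/-- Noether normalisation with control of the dimension. -/
theorem noether [Nontrivial A] {n : ℕ} (hA : ringKrullDim A ≤ n) :
    ∃ (s : ℕ) (g : MvPolynomial (Fin s) k →ₐ[k] A), s ≤ n ∧ Function.Injective g ∧ g.IsIntegral := by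
  obtain ⟨s, g, hg1, hg2⟩ := exists_integral_inj_algHom_of_fg k A
  refine ⟨s, g, ?_, hg1, hg2⟩
  let _ : Algebra (MvPolynomial (Fin s) k) A := g.toRingHom.toAlgebra
  have : Algebra.IsIntegral (MvPolynomial (Fin s) k) A := ⟨hg2⟩
  have h2 : ringKrullDim (MvPolynomial (Fin s) k) ≤ ringKrullDim A :=
    ringKrullDim_ge_of_integral hg1
  rw [MvPolynomial.ringKrullDim_of_isNoetherianRing, ringKrullDim_eq_zero_of_field] at h2
  have h3 := h2.trans hA
  simp only [zero_add, Nat.card_eq_fintype_card, Fintype.card_fin] at h3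
  exact_mod_cast h3

theorem affine_bound {n : ℕ} (hA : ringKrullDim A ≤ n) :
    ∃ C : ℕ, ∀ (F : Type) [Field F] [Algebra k F] [Finite F],
      Nat.card (A →ₐ[k] F) ≤ C * Nat.card F ^ n := by
  classical
  rcases subsingleton_or_nontrivial A with hs | hn
  · refine ⟨0, fun F _ _ _ => ?_⟩
    have : IsEmpty (A →ₐ[k] F) := by
      constructor
      intro φ
      have h1 : (1 : F) = 0 := by rw [← map_one φ, ← map_zero φ]; exact congrArg φ (Subsingleton.elim _ _)
      exact one_ne_zero h1
    simp
  · obtain ⟨s, g, hs, hg1, hg2⟩ := noether k A hA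
    obtain ⟨l, f, hf⟩ := Algebra.FiniteType.iff_quotient_mvPolynomial''.1
      (inferInstance : Algebra.FiniteType k A)
    have hp : ∀ j : Fin l, ∃ p : Polynomial (MvPolynomial (Fin s) k), p.Monic ∧
        p.eval₂ (g : MvPolynomial (Fin s) k →+* A) (f (MvPolynomial.X j)) = 0 :=
      fun j => hg2 (f (MvPolynomial.X j))
    choose p hp1 hp2 using hp
    refine ⟨∏ j, (p j).natDegree, fun F _ _ _ => ?_⟩
    let S : (MvPolynomial (Fin s) k →ₐ[k] F) → Type := fun ψ =>
      (j : Fin l) → {r : F // r ∈ ((p j).map (ψ : MvPolynomial (Fin s) k →+* F)).roots.toFinset}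
    have hS : ∀ ψ, Finite (S ψ) := fun ψ => inferInstance
    let Φ : (A →ₐ[k] F) → Σ ψ, S ψ := fun φ => ⟨φ.comp g, fun j => ⟨φ (f (MvPolynomial.X j)), by
      rw [Multiset.mem_toFinset, Polynomial.mem_roots ((hp1 j).map _).ne_zero,
        Polynomial.IsRoot.def, Polynomial.eval_map]
      have h := congrArg φ (hp2 j)
      rw [map_zero] at h
      rw [← h]
      have := Polynomial.hom_eval₂ (p j) (g : MvPolynomial (Fin s) k →+* A) (φ : A →+* F)
        (f (MvPolynomial.X j))
      exact this.symm⟩⟩
    have hΦ : Function.Injective Φ := by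
      intro φ ψ h
      have h1 : φ.comp f = ψ.comp f := by
        apply MvPolynomial.algHom_ext
        intro j
        have h3 : ∀ (x y : Σ ψ, S ψ), x = y → ((x.2 j : F) = (y.2 j : F)) := by
          rintro x _ rfl; rfl
        exact h3 _ _ h
      ext a
      obtain ⟨b, rfl⟩ := hf a
      exact DFunLike.congr_fun h1 b
    have : Fintype (MvPolynomial (Fin s) k →ₐ[k] F) := Fintype.ofFinite _
    have hcard := Nat.card_le_card_of_injective Φ hΦ
    refine hcard.trans ?_
    rw [Nat.card_sigma]
    have h4 : ∀ ψ, Nat.card (S ψ) ≤ ∏ j, (p j).natDegree := by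
      intro ψ
      rw [Nat.card_pi]
      refine Finset.prod_le_prod' fun j _ => ?_
      rw [Nat.card_eq_fintype_card, Fintype.card_coe]
      refine (Multiset.toFinset_card_le _).trans ((Polynomial.card_roots' _).trans ?_)
      exact Polynomial.natDegree_map_le
    have h5 : Nat.card (MvPolynomial (Fin s) k →ₐ[k] F) = Nat.card F ^ s := by
      have e : (MvPolynomial (Fin s) k →ₐ[k] F) ≃ (Fin s → F) :=
        ⟨fun φ i => φ (MvPolynomial.X i), fun a => MvPolynomial.aeval a,
          fun φ => by ext; simp, fun a => by ext; simp⟩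
      rw [Nat.card_congr e, Nat.card_fun]
      simp
    calc ∑ ψ, Nat.card (S ψ) ≤ ∑ _ψ : (MvPolynomial (Fin s) k →ₐ[k] F), ∏ j, (p j).natDegree :=
          Finset.sum_le_sum fun ψ _ => h4 ψ
      _ = Nat.card (MvPolynomial (Fin s) k →ₐ[k] F) * ∏ j, (p j).natDegree := by
          rw [Finset.sum_const, smul_eq_mul, Finset.card_univ, Nat.card_eq_fintype_card]
      _ = (∏ j, (p j).natDegree) * Nat.card F ^ s := by rw [h5, mul_comm]
      _ ≤ (∏ j, (p j).natDegree) * Nat.card F ^ n := by
          refine Nat.mul_le_mul_left _ (Nat.pow_le_pow_right ?_ hs)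
          exact Nat.card_pos

end affine

variable {k : Type} [Field k]

theorem chart_dim_le {X : Variety k} (c : Chart X) : ringKrullDim c.A ≤ topologicalKrullDim X.X := by
  have h := c.g.isOpenEmbedding.isInducing.topologicalKrullDim_le
  have h2 : topologicalKrullDim (Spec (CommRingCat.of c.A)) = ringKrullDim c.A :=
    PrimeSpectrum.topologicalKrullDim_eq_ringKrullDim _
  rwa [h2] at h

theorem count_bound (X : Variety k) {n : ℕ} (hX : topologicalKrullDim X.X ≤ n) :
    ∃ C : ℕ, ∀ (F : Type) [Field F] [Algebra k F] [Finite F],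
      npts F X ≤ C * Nat.card F ^ n := by
  obtain ⟨ι, hι, c, hc⟩ := exists_charts X
  have : Fintype ι := Fintype.ofFinite ι
  have h := fun i => affine_bound k (c i).A ((chart_dim_le (c i)).trans hX)
  choose C hC using h
  refine ⟨∑ i, C i, fun F _ _ _ => ?_⟩
  have h1 : ∀ i, Finite (Pts F (specVar k (c i).A)) := fun i =>
    Finite.of_equiv _ (ptsSpec k (c i).A).symm
  have hsurj : Function.Surjective
    (fun x : (Σ i, Pts F (specVar k (c i).A)) => Pts.map (c x.1).g (c x.1).hg x.2) := by
    intro x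
    obtain ⟨i, y, hy⟩ := exists_chart_point c hc x
    exact ⟨⟨i, y⟩, hy⟩
  refine (Nat.card_le_card_of_surjective _ hsurj).trans ?_
  rw [Nat.card_sigma, Finset.sum_mul]
  refine Finset.sum_le_sum fun i _ => ?_
  rw [Nat.card_congr (ptsSpec k (c i).A)]
  exact hC i F

end Pool.Agent.H519R3.K0V
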