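import Pool.Agent.H519R3.K0V.Filt

set_option autoImplicit false

open AlgebraicGeometry CategoryTheory Limits

namespace Pool.Agent.H519R3.K0V

variable {k : Type} [Field k]

section affine

variable {A B : Type} [CommRing A] [CommRing B] [Algebra k A] [Algebra k B]
  [Algebra.FiniteType k A] [Algebra.FiniteType k B]

theorem specMap_str (f : A →ₐ[k] B) :
    Spec.map (CommRingCat.ofHom (f : A →+* B)) ≫ (specVar k A).str = (specVar k B).str := by
  change Spec.map (CommRingCat.ofHom (f : A →+* B)) ≫
    Spec.map (CommRingCat.ofHom (algebraMap k A)) = Spec.map (CommRingCat.ofHom (algebraMap k B))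
  rw [← Spec.map_comp, ← CommRingCat.ofHom_comp, AlgHom.comp_algebraMap]

/-- The isomorphism of spectra given by an isomorphism of algebras. -/
noncomputable def specIso (e : A ≃ₐ[k] B) :
    Spec (CommRingCat.of A) ≅ Spec (CommRingCat.of B) where
  hom := Spec.map (CommRingCat.ofHom ((e.symm : B →ₐ[k] A) : B →+* A))
  inv := Spec.map (CommRingCat.ofHom ((e : A →ₐ[k] B) : A →+* B))
  hom_inv_id := by
    rw [← Spec.map_comp, ← CommRingCat.ofHom_comp, ← Spec.map_id]
    congr 1
    ext a
    simp
  inv_hom_id := by
    rw [← Spec.map_comp, ← CommRingCat.ofHom_comp, ← Spec.map_id]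
    congr 1
    ext a
    simp

theorem cls_algEquiv (e : A ≃ₐ[k] B) : cls (specVar k A) = cls (specVar k B) :=
  cls_iso (X := specVar k A) (Y := specVar k B) (specIso e) (specMap_str (e.symm : B →ₐ[k] A))

theorem range_loc (f : A) :
    Set.range (Spec.map (CommRingCat.ofHom (algebraMap A (Localization.Away f)))) =
      (Set.range (Spec.map (CommRingCat.ofHom (Ideal.Quotient.mk (Ideal.span {f})))))ᶜ := by
  have h1 : Set.range (PrimeSpectrum.comap (algebraMap A (Localization.Away f))) =
      PrimeSpectrum.basicOpen f := PrimeSpectrum.localization_away_comap_range _ f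
  have h2 : Set.range (PrimeSpectrum.comap (Ideal.Quotient.mk (Ideal.span {f}))) =
      PrimeSpectrum.zeroLocus {f} := by
    rw [range_comap_of_surjective _ _ Ideal.Quotient.mk_surjective,
      Ideal.mk_ker, PrimeSpectrum.zeroLocus_span]
  have h3 : (PrimeSpectrum.basicOpen f : Set (PrimeSpectrum A)) =
      (PrimeSpectrum.zeroLocus {f})ᶜ := PrimeSpectrum.basicOpen_eq_zeroLocus_compl f
  rw [h3, ← h2] at h1
  exact h1

/-- `[Spec A] = [V(f)] + [D(f)]`. -/
theorem cls_hypersurface (f : A) :
    cls (specVar k A) = cls (specVar k (A ⧸ Ideal.span {f})) +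
      cls (specVar k (Localization.Away f)) := by
  have hi : Spec.map (CommRingCat.ofHom (Ideal.Quotient.mk (Ideal.span {f}))) ≫
      Spec.map (CommRingCat.ofHom (algebraMap k A)) =
      Spec.map (CommRingCat.ofHom (algebraMap k (A ⧸ Ideal.span {f}))) := by
    rw [← Spec.map_comp, ← CommRingCat.ofHom_comp]
  have hj : Spec.map (CommRingCat.ofHom (algebraMap A (Localization.Away f))) ≫
      Spec.map (CommRingCat.ofHom (algebraMap k A)) =
      Spec.map (CommRingCat.ofHom (algebraMap k (Localization.Away f))) := by
    rw [← Spec.map_comp, ← CommRingCat.ofHom_comp, ← IsScalarTower.algebraMap_eq]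
  have hi' : IsClosedImmersion (Spec.map (CommRingCat.ofHom (Ideal.Quotient.mk (Ideal.span {f})))) :=
    IsClosedImmersion.spec_of_surjective _ (Ideal.Quotient.mk_surjective)
  have hj' : IsOpenImmersion (Spec.map (CommRingCat.ofHom (algebraMap A (Localization.Away f)))) :=
    Scheme.isOpenImmersion_SpecMap_localizationAway (R := CommRingCat.of A) f
  exact cls_scissors (X := specVar k A) (Z := specVar k (A ⧸ Ideal.span {f}))
    (U := specVar k (Localization.Away f))
    (Spec.map (CommRingCat.ofHom (Ideal.Quotient.mk (Ideal.span {f}))))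
    (Spec.map (CommRingCat.ofHom (algebraMap A (Localization.Away f)))) hi' hj' hi hj (range_loc f)

/-- `[Spec (A × B)] = [Spec A] + [Spec B]`. -/
theorem cls_prodRing : cls (specVar k (A × B)) = cls (specVar k A) + cls (specVar k B) := by
  refine cls_scissors (X := specVar k (A × B)) (Z := specVar k A) (U := specVar k B)
    (Spec.map (CommRingCat.ofHom (AlgHom.fst k A B : A × B →+* A)))
    (Spec.map (CommRingCat.ofHom (AlgHom.snd k A B : A × B →+* B)))
    ?_ ?_ (specMap_str _) (specMap_str _) ?_
  · exact IsClosedImmersion.spec_of_surjective _ Prod.fst_surjective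
  · let _ := (RingHom.snd A B).toAlgebra
    have : IsOpenImmersion (Spec.map (CommRingCat.ofHom (RingHom.snd A B))) :=
      IsOpenImmersion.of_isLocalization (0, 1)
    exact this
  · have h1 : Set.range (PrimeSpectrum.comap (RingHom.snd A B)) =
        PrimeSpectrum.zeroLocus (RingHom.ker (RingHom.snd A B)) :=
      range_comap_of_surjective _ _ Prod.snd_surjective
    have h2 : Set.range (PrimeSpectrum.comap (RingHom.fst A B)) =
        PrimeSpectrum.zeroLocus (RingHom.ker (RingHom.fst A B)) :=
      range_comap_of_surjective _ _ Prod.fst_surjective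
    have h3 : (PrimeSpectrum.zeroLocus (RingHom.ker (RingHom.snd A B)) :
        Set (PrimeSpectrum (A × B))) = (PrimeSpectrum.zeroLocus (RingHom.ker (RingHom.fst A B)))ᶜ := by
      ext p
      rw [Set.mem_compl_iff, PrimeSpectrum.mem_zeroLocus, PrimeSpectrum.mem_zeroLocus]
      have hs : ((1 : A), (0 : B)) * ((0 : A), (1 : B)) ∈ p.asIdeal := by
        have : ((1 : A), (0 : B)) * ((0 : A), (1 : B)) = 0 := by ext <;> simp
        rw [this]
        exact p.asIdeal.zero_mem
      constructor
      · intro h h'
        apply p.2.ne_top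
        rw [Ideal.eq_top_iff_one]
        have ha : ((1 : A), (0 : B)) ∈ p.asIdeal := h (by simp [RingHom.mem_ker])
        have hb : ((0 : A), (1 : B)) ∈ p.asIdeal := h' (by simp [RingHom.mem_ker])
        have := p.asIdeal.add_mem ha hb
        have h1 : ((1 : A), (0 : B)) + ((0 : A), (1 : B)) = 1 := by ext <;> simp
        rwa [h1] at this
      · intro h
        rcases p.2.mem_or_mem hs with ha | hb
        · rintro ⟨x, y⟩ hxy
          rw [SetLike.mem_coe, RingHom.mem_ker] at hxy
          simp only [RingHom.coe_snd] at hxy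
          subst hxy
          have := p.asIdeal.mul_mem_left (x, 0) ha
          simpa [Prod.mk_mul_mk] using this
        · exfalso
          apply h
          rintro ⟨x, y⟩ hxy
          rw [SetLike.mem_coe, RingHom.mem_ker] at hxy
          simp only [RingHom.coe_fst] at hxy
          subst hxy
          have := p.asIdeal.mul_mem_left (0, y) hb
          simpa [Prod.mk_mul_mk] using this
    rw [h3, ← h2] at h1
    exact h1

open TensorProduct in
instance finiteType_tensor : Algebra.FiniteType k (A ⊗[k] B) :=
  Algebra.FiniteType.trans (S := A) inferInstance inferInstance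

open TensorProduct in
theorem cls_tensor : cls (specVar k (A ⊗[k] B)) = cls (specVar k A) * cls (specVar k B) := by
  rw [← cls_prodVar]
  refine cls_iso (X := specVar k (A ⊗[k] B)) (Y := prodVar (specVar k A) (specVar k B))
    (pullbackSpecIso k A B).symm ?_
  have h := pullbackSpecIso_inv_fst k A B
  change (pullbackSpecIso k A B).inv ≫ (pullback.fst (Spec.map (CommRingCat.ofHom (algebraMap k A)))
    (Spec.map (CommRingCat.ofHom (algebraMap k B))) ≫
      Spec.map (CommRingCat.ofHom (algebraMap k A))) = _
  rw [← Category.assoc, h, ← Spec.map_comp, ← CommRingCat.ofHom_comp]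
  rfl

theorem cls_subsingleton [Subsingleton A] : cls (specVar k A) = 0 := by
  have e : (A × A) ≃ₐ[k] A :=
    { toFun := fun x => x.1
      invFun := fun x => (x, x)
      left_inv := fun x => Subsingleton.elim _ _
      right_inv := fun x => rfl
      map_mul' := fun x y => rfl
      map_add' := fun x y => rfl
      commutes' := fun r => rfl }
  have h := cls_algEquiv e
  rw [cls_prodRing] at h
  exact left_eq_add.1 h.symm

end affine

/-- `[𝔸ⁿ] = Lⁿ`. -/
theorem cls_affine (n : ℕ) : cls (specVar k (MvPolynomial (Fin n) k)) = lef k ^ n := by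
  induction n with
  | zero =>
    rw [pow_zero, ← cls_specVar_self]
    exact cls_algEquiv (MvPolynomial.isEmptyAlgEquiv k (Fin 0))
  | succ n ih =>
    rw [pow_succ, ← ih, lef, ← cls_tensor]
    exact cls_algEquiv ((MvPolynomial.finSuccEquiv k n).trans
      ((polyEquivTensor k (MvPolynomial (Fin n) k)).restrictScalars k))

theorem cls_affine_fintype (σ : Type) [Fintype σ] :
    cls (specVar k (MvPolynomial σ k)) = lef k ^ Fintype.card σ := by
  rw [← cls_affine]
  exact cls_algEquiv (MvPolynomial.renameEquiv k (Fintype.equivFin σ))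

/-- Splitting off the first factor. -/
def consAlgEquiv (k : Type) [Field k] (n : ℕ) (A : Fin (n + 1) → Type) [∀ i, CommRing (A i)]
    [∀ i, Algebra k (A i)] : (A 0 × ∀ i : Fin n, A i.succ) ≃ₐ[k] (∀ i, A i) where
  toFun x := Fin.cons x.1 x.2
  invFun x := (x 0, fun i => x i.succ)
  left_inv x := by ext <;> simp
  right_inv x := by
    funext i
    refine Fin.cases ?_ (fun i => ?_) i <;> simp
  map_mul' x y := by
    funext i
    refine Fin.cases ?_ (fun i => ?_) i <;> simp
  map_add' x y := by
    funext i
    refine Fin.cases ?_ (fun i => ?_) i <;> simp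
  commutes' r := by
    funext i
    refine Fin.cases ?_ (fun i => ?_) i <;> simp

theorem finiteType_pi_fin (n : ℕ) (A : Fin n → Type) [∀ i, CommRing (A i)] [∀ i, Algebra k (A i)]
    [∀ i, Algebra.FiniteType k (A i)] : Algebra.FiniteType k (∀ i, A i) := by
  induction n with
  | zero =>
    have : Module.Finite k (∀ i, A i) := inferInstance
    infer_instance
  | succ n ih =>
    have h := ih (fun i => A i.succ)
    exact Algebra.FiniteType.equiv inferInstance (consAlgEquiv k n A)

instance finiteType_pi {ι : Type} [Finite ι] (A : ι → Type) [∀ i, CommRing (A i)]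
    [∀ i, Algebra k (A i)] [∀ i, Algebra.FiniteType k (A i)] :
    Algebra.FiniteType k (∀ i, A i) := by
  have := Fintype.ofFinite ι
  have h := finiteType_pi_fin (k := k) (Fintype.card ι) (fun i => A ((Fintype.equivFin ι).symm i))
  exact Algebra.FiniteType.equiv h (AlgEquiv.piCongrLeft k A (Fintype.equivFin ι).symm)

theorem cls_pi_fin (n : ℕ) (A : Fin n → Type) [∀ i, CommRing (A i)] [∀ i, Algebra k (A i)]
    [∀ i, Algebra.FiniteType k (A i)] :
    cls (specVar k (∀ i, A i)) = ∑ i, cls (specVar k (A i)) := by
  induction n with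
  | zero =>
    rw [Finset.univ_eq_empty, Finset.sum_empty]
    exact cls_subsingleton
  | succ n ih =>
    rw [Fin.sum_univ_succ, ← ih (fun i => A i.succ), ← cls_prodRing]
    exact (cls_algEquiv (consAlgEquiv k n A)).symm

/-- The class of a finite disjoint union of affine varieties. -/
theorem cls_pi {ι : Type} [Fintype ι] (A : ι → Type) [∀ i, CommRing (A i)]
    [∀ i, Algebra k (A i)] [∀ i, Algebra.FiniteType k (A i)] :
    cls (specVar k (∀ i, A i)) = ∑ i, cls (specVar k (A i)) := by
  rw [← cls_algEquiv (AlgEquiv.piCongrLeft k A (Fintype.equivFin ι).symm), cls_pi_fin]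
  exact Equiv.sum_comp (Fintype.equivFin ι).symm fun i => cls (specVar k (A i))

end Pool.Agent.H519R3.K0V
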