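import Pool.Agent.H519R3.K0V.Classes

set_option autoImplicit false

open AlgebraicGeometry CategoryTheory Limits

namespace Pool.Agent.H519R3.K0V

/-- The monic polynomial `T^j + a_{j-1} T^(j-1) + ... + a_0`. -/
noncomputable def monicPoly {R : Type} [CommRing R] (j : ℕ) (a : Fin j → R) : Polynomial R :=
  Polynomial.X ^ j + ∑ i, Polynomial.C (a i) * Polynomial.X ^ (i : ℕ)

section poly

variable {R S : Type} [CommRing R] [CommRing S]

theorem degree_lower (j : ℕ) (a : Fin j → R) :
    (∑ i, Polynomial.C (a i) * Polynomial.X ^ (i : ℕ) : Polynomial R).degree < j := by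
  refine (Polynomial.degree_sum_le _ _).trans_lt ?_
  rw [Finset.sup_lt_iff (by exact WithBot.bot_lt_coe j)]
  intro i _
  refine (Polynomial.degree_C_mul_X_pow_le _ _).trans_lt ?_
  exact_mod_cast i.2

theorem monicPoly_monic (j : ℕ) (a : Fin j → R) : (monicPoly j a).Monic :=
  Polynomial.monic_X_pow_add (degree_lower j a)

theorem natDegree_monicPoly [Nontrivial R] (j : ℕ) (a : Fin j → R) :
    (monicPoly j a).natDegree = j := by
  unfold monicPoly
  rw [Polynomial.natDegree_add_eq_left_of_degree_lt]
  · simp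
  · rw [Polynomial.degree_X_pow]
    exact degree_lower j a

theorem map_monicPoly (f : R →+* S) (j : ℕ) (a : Fin j → R) :
    (monicPoly j a).map f = monicPoly j (fun i => f (a i)) := by
  unfold monicPoly
  simp [Polynomial.map_sum, Polynomial.map_add]

theorem coeff_zero_monicPoly_zero (a : Fin 0 → R) : (monicPoly 0 a).coeff 0 = 1 := by
  simp [monicPoly]

theorem coeff_zero_monicPoly_succ (j : ℕ) (a : Fin (j + 1) → R) :
    (monicPoly (j + 1) a).coeff 0 = a 0 := by
  unfold monicPoly
  rw [Fin.sum_univ_succ]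
  simp

end poly

variable (k : Type) [Field k]

/-- The first of the two universal monic polynomials. -/
noncomputable def univFst (i j : ℕ) : Polynomial (MvPolynomial (Fin i ⊕ Fin j) k) :=
  monicPoly i fun r => MvPolynomial.X (Sum.inl r)

/-- The second of the two universal monic polynomials. -/
noncomputable def univSnd (i j : ℕ) : Polynomial (MvPolynomial (Fin i ⊕ Fin j) k) :=
  monicPoly j fun r => MvPolynomial.X (Sum.inr r)

/-- The coordinate ring of the symmetric power `Sym^j 𝔾ₘ`: it is the open subset of the affine space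
of the monic polynomials `T^j + a_{j-1} T^(j-1) + ... + a_0` where the constant coefficient does not
vanish. -/
def SymGm (j : ℕ) : Type :=
  Localization.Away ((monicPoly j (MvPolynomial.X : Fin j → MvPolynomial (Fin j) k)).coeff 0)

noncomputable instance (j : ℕ) : CommRing (SymGm k j) :=
  (inferInstance : CommRing (Localization.Away
    ((monicPoly j (MvPolynomial.X : Fin j → MvPolynomial (Fin j) k)).coeff 0)))

noncomputable instance (j : ℕ) : Algebra k (SymGm k j) :=
  (inferInstance : Algebra k (Localization.Away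
    ((monicPoly j (MvPolynomial.X : Fin j → MvPolynomial (Fin j) k)).coeff 0)))

instance (j : ℕ) : Algebra.FiniteType k (SymGm k j) :=
  (inferInstance : Algebra.FiniteType k (Localization.Away
    ((monicPoly j (MvPolynomial.X : Fin j → MvPolynomial (Fin j) k)).coeff 0)))

/-- The coordinate ring of the open subset of `Sym^i 𝔾ₘ × Sym^j 𝔾ₘ` of the pairs of coprime monic
polynomials: the constant coefficients and the resultant do not vanish. -/
def Coprime (i j : ℕ) : Type :=
  Localization.Away ((univFst k i j).coeff 0 * (univSnd k i j).coeff 0 *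
    (univFst k i j).resultant (univSnd k i j))

noncomputable instance (i j : ℕ) : CommRing (Coprime k i j) :=
  (inferInstance : CommRing (Localization.Away ((univFst k i j).coeff 0 *
    (univSnd k i j).coeff 0 * (univFst k i j).resultant (univSnd k i j))))

noncomputable instance (i j : ℕ) : Algebra k (Coprime k i j) :=
  (inferInstance : Algebra k (Localization.Away ((univFst k i j).coeff 0 *
    (univSnd k i j).coeff 0 * (univFst k i j).resultant (univSnd k i j))))

instance (i j : ℕ) : Algebra.FiniteType k (Coprime k i j) :=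
  (inferInstance : Algebra.FiniteType k (Localization.Away ((univFst k i j).coeff 0 *
    (univSnd k i j).coeff 0 * (univFst k i j).resultant (univSnd k i j))))

/-- The space `X_d` of zero-cycles of degree `d` on the graded space `U = (Spec k, 𝔾ₘ, ∅, ∅, …)`:
the disjoint union over `m₂ ≤ d / 2` (and `m₁ = d - 2 m₂`) of
`Sym^{m₁} (Spec k) × Sym^{m₂} 𝔾ₘ = Sym^{m₂} 𝔾ₘ`. -/
noncomputable def cycles (d : ℕ) : Variety k :=
  specVar k (∀ m : Fin (d / 2 + 1), SymGm k m)

/-- The pairs `m₂ ≤ d / 2`, `m₂' ≤ e / 2` such that the minimum of the multiplicities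
`m₁ = d - 2 m₂`, `m₁' = e - 2 m₂'` at the point of `U₁` is zero. -/
abbrev CopIdx (d e : ℕ) : Type :=
  {m : Fin (d / 2 + 1) × Fin (e / 2 + 1) // min (d - 2 * (m.1 : ℕ)) (e - 2 * (m.2 : ℕ)) = 0}

/-- The degree `m₂` of the first polynomial. -/
def copFst {d e : ℕ} (m : CopIdx d e) : ℕ := m.1.1

/-- The degree `m₂'` of the second polynomial. -/
def copSnd {d e : ℕ} (m : CopIdx d e) : ℕ := m.1.2

/-- The space `Z_1^{(d, e)}` of the pairs of cycles of degrees `d` and `e` whose greatest common
divisor is trivial: the disjoint union over `m₂ ≤ d / 2`, `m₂' ≤ e / 2` such that the minimum of the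
multiplicities `m₁ = d - 2 m₂`, `m₁' = e - 2 m₂'` at the point of `U₁` is zero of the spaces of pairs
of coprime polynomials. -/
noncomputable def coprimeCycles (d e : ℕ) : Variety k :=
  specVar k (∀ m : CopIdx d e, Coprime k (copFst m) (copSnd m))

variable {k}

theorem cls_SymGm_zero : cls (specVar k (SymGm k 0)) = 1 := by
  have h := cls_hypersurface (k := k)
    ((monicPoly 0 (MvPolynomial.X : Fin 0 → MvPolynomial (Fin 0) k)).coeff 0)
  have hs : Subsingleton (MvPolynomial (Fin 0) k ⧸
      Ideal.span {(monicPoly 0 (MvPolynomial.X : Fin 0 → MvPolynomial (Fin 0) k)).coeff 0}) := by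
    rw [Ideal.Quotient.subsingleton_iff, Ideal.span_singleton_eq_top, coeff_zero_monicPoly_zero]
    exact isUnit_one
  rw [cls_affine, pow_zero, cls_subsingleton (A := MvPolynomial (Fin 0) k ⧸
      Ideal.span {(monicPoly 0 (MvPolynomial.X : Fin 0 → MvPolynomial (Fin 0) k)).coeff 0}),
    zero_add] at h
  exact h.symm

theorem cls_coordHyperplane (j : ℕ) : cls (specVar k (MvPolynomial (Fin (j + 1)) k ⧸ Ideal.span
    {(MvPolynomial.X 0 : MvPolynomial (Fin (j + 1)) k)})) = lef k ^ j := by
  rw [← cls_affine]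
  let φ : MvPolynomial (Fin (j + 1)) k →ₐ[k] MvPolynomial (Fin j) k :=
    ((Polynomial.aeval (0 : MvPolynomial (Fin j) k)).restrictScalars k).comp
      (MvPolynomial.finSuccEquiv k j).toAlgHom
  have hφ : Function.Surjective φ := by
    intro q
    refine ⟨(MvPolynomial.finSuccEquiv k j).symm (Polynomial.C q), ?_⟩
    simp [φ]
  have hker : RingHom.ker φ = Ideal.span {(MvPolynomial.X 0 : MvPolynomial (Fin (j + 1)) k)} := by
    ext f
    rw [RingHom.mem_ker, Ideal.mem_span_singleton,
      ← map_dvd_iff (MvPolynomial.finSuccEquiv k j), MvPolynomial.finSuccEquiv_X_zero,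
      Polynomial.X_dvd_iff]
    simp [φ, Polynomial.coeff_zero_eq_aeval_zero]
  have e1 : (MvPolynomial (Fin (j + 1)) k ⧸ Ideal.span
      {(MvPolynomial.X 0 : MvPolynomial (Fin (j + 1)) k)}) ≃ₐ[k] MvPolynomial (Fin j) k :=
    (Ideal.quotientEquivAlgOfEq k hker.symm).trans (Ideal.quotientKerAlgEquivOfSurjective hφ)
  exact cls_algEquiv e1

theorem cls_SymGm_succ (j : ℕ) :
    cls (specVar k (SymGm k (j + 1))) = lef k ^ (j + 1) - lef k ^ j := by
  have h := cls_hypersurface (k := k)
    ((monicPoly (j + 1) (MvPolynomial.X : Fin (j + 1) → MvPolynomial (Fin (j + 1)) k)).coeff 0)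
  have h1 : cls (specVar k (MvPolynomial (Fin (j + 1)) k ⧸ Ideal.span
      {(monicPoly (j + 1) (MvPolynomial.X : Fin (j + 1) → MvPolynomial (Fin (j + 1)) k)).coeff 0})) =
      lef k ^ j := by
    rw [coeff_zero_monicPoly_succ]
    exact cls_coordHyperplane j
  rw [h1, cls_affine] at h
  rw [h, add_sub_cancel_left]
  rfl

theorem cls_cycles (d : ℕ) : cls (cycles k d) = lef k ^ (d / 2) := by
  unfold cycles
  rw [cls_pi (k := k) (fun m : Fin (d / 2 + 1) => SymGm k m)]
  rw [Fin.sum_univ_eq_sum_range (fun m => cls (specVar k (SymGm k m))) (d / 2 + 1),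
    Finset.sum_range_succ', cls_SymGm_zero]
  rw [Finset.sum_congr rfl (fun j _ => cls_SymGm_succ (k := k) j)]
  have h := Finset.sum_range_sub (fun j => lef k ^ j) (d / 2)
  rw [pow_zero] at h
  exact (congrArg (· + 1) h).trans (sub_add_cancel _ _)

/-- In odd degrees every cycle contains the point of `U₁`. -/
theorem cls_coprime_odd (a b : ℕ) : cls (coprimeCycles k (2 * a + 1) (2 * b + 1)) = 0 := by
  have : IsEmpty {m : Fin ((2 * a + 1) / 2 + 1) × Fin ((2 * b + 1) / 2 + 1) //
    min ((2 * a + 1) - 2 * (m.1 : ℕ)) ((2 * b + 1) - 2 * (m.2 : ℕ)) = 0} := by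
    constructor
    rintro ⟨⟨⟨x, hx⟩, ⟨y, hy⟩⟩, h⟩
    simp only at h
    omega
  unfold coprimeCycles
  exact cls_subsingleton

end Pool.Agent.H519R3.K0V
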