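import Pool.Agent.H519R3.K0V.Defs

set_option autoImplicit false

open AlgebraicGeometry CategoryTheory Limits

namespace Pool.Agent.H519R3.K0V

variable {k : Type} [Field k]

/-- An affine chart of a variety. -/
structure Chart (X : Variety k) where
  A : Type
  [cr : CommRing A]
  [alg : Algebra k A]
  [ft : Algebra.FiniteType k A]
  g : Spec (CommRingCat.of A) ⟶ X.X
  [op : IsOpenImmersion g]
  hg : g ≫ X.str = Spec.map (CommRingCat.ofHom (algebraMap k A))

attribute [instance] Chart.cr Chart.alg Chart.ft Chart.op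

theorem compactSpace (X : Variety k) : CompactSpace X.X :=
  QuasiCompact.compactSpace_of_compactSpace X.str

/-- Every open immersion from an affine scheme gives a chart. -/
theorem exists_chart (X : Variety k) (R : CommRingCat.{0}) (g : Spec R ⟶ X.X)
    [IsOpenImmersion g] :
    ∃ c : Chart X, Set.range c.g = Set.range g := by
  obtain ⟨φ, hφ⟩ : ∃ φ : CommRingCat.of k ⟶ R, Spec.map φ = g ≫ X.str :=
    ⟨Spec.preimage _, Spec.map_preimage _⟩
  let _ : Algebra k R := φ.hom.toAlgebra
  have hft : LocallyOfFiniteType (Spec.map φ) := by rw [hφ]; infer_instance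
  rw [HasRingHomProperty.Spec_iff (P := @LocallyOfFiniteType)] at hft
  haveI : Algebra.FiniteType k R := hft
  exact ⟨{ A := R, g := g, hg := hφ.symm }, rfl⟩

theorem exists_charts (X : Variety k) :
    ∃ (ι : Type) (_ : Finite ι) (c : ι → Chart X), ∀ x : X.X, ∃ i, x ∈ Set.range (c i).g := by
  have := compactSpace X
  let 𝒰 := X.X.affineCover.finiteSubcover
  have h : ∀ i : 𝒰.I₀, ∃ c : Chart X, Set.range c.g = Set.range (𝒰.f i) := by
    intro i
    exact @exists_chart k _ X _ (𝒰.f i) (𝒰.map_prop i)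
  choose c hc using h
  refine ⟨𝒰.I₀, inferInstance, c, fun x => ?_⟩
  obtain ⟨i, y, hy⟩ := 𝒰.exists_eq x
  refine ⟨i, ?_⟩
  rw [hc]
  exact ⟨y, hy⟩

end Pool.Agent.H519R3.K0V
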