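import Mathlib

set_option autoImplicit false

open AlgebraicGeometry CategoryTheory Limits

namespace Pool.Agent.H519R3.K0V

/-- A variety over `k`: a separated scheme of finite type over `k`. -/
structure Variety (k : Type) [Field k] : Type 1 where
  X : Scheme.{0}
  str : X ⟶ Spec (CommRingCat.of k)
  sep : IsSeparated str
  lft : LocallyOfFiniteType str
  qc : QuasiCompact str

attribute [instance] Variety.sep Variety.lft Variety.qc

/-- The spectrum of a finitely generated `k`-algebra. -/
noncomputable def specVar (k A : Type) [Field k] [CommRing A] [Algebra k A]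
    [hA : Algebra.FiniteType k A] : Variety k where
  X := Spec (CommRingCat.of A)
  str := Spec.map (CommRingCat.ofHom (algebraMap k A))
  sep := inferInstance
  lft := by
    rw [HasRingHomProperty.Spec_iff (P := @LocallyOfFiniteType)]
    exact RingHom.finiteType_algebraMap.2 hA
  qc := inferInstance

/-- The image of a morphism of schemes. -/
def rangeSet {X Y : Scheme.{0}} (f : X ⟶ Y) : Set Y := Set.range f

/-- The relations of the Grothendieck ring of varieties. -/
inductive Rel (k : Type) [Field k] : FreeCommRing (Variety k) → Prop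
  /-- isomorphic varieties have the same class -/
  | iso (X Y : Variety k) (e : X.X ≅ Y.X) (h : e.hom ≫ Y.str = X.str) :
      Rel k (FreeCommRing.of X - FreeCommRing.of Y)
  /-- `[X] = [Z] + [U]` for a closed subscheme `Z` with open complement `U` -/
  | scissors (X Z U : Variety k) (i : Z.X ⟶ X.X) (j : U.X ⟶ X.X) (hi : IsClosedImmersion i)
      (hj : LocallyRingedSpace.IsOpenImmersion j.toLRSHom) (hik : i ≫ X.str = Z.str)
      (hjk : j ≫ X.str = U.str) (h : rangeSet j = (rangeSet i)ᶜ) :
      Rel k (FreeCommRing.of X - (FreeCommRing.of Z + FreeCommRing.of U))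
  /-- `[X ×ₖ Y] = [X] [Y]` -/
  | prod (P X Y : Variety k) (p : P.X ⟶ X.X) (q : P.X ⟶ Y.X) (h : IsPullback p q X.str Y.str)
      (hp : p ≫ X.str = P.str) :
      Rel k (FreeCommRing.of P - FreeCommRing.of X * FreeCommRing.of Y)
  /-- the class of `Spec k` is `1` -/
  | point (X : Variety k) (h : IsIso X.str) : Rel k (FreeCommRing.of X - 1)

/-- The Grothendieck ring of varieties `K₀(Var_k)`. -/
def K0 (k : Type) [Field k] : Type 1 := FreeCommRing (Variety k) ⧸ Ideal.span {x | Rel k x}

noncomputable instance instCommRingK0 (k : Type) [Field k] : CommRing (K0 k) :=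
  Ideal.Quotient.commRing (Ideal.span {x | Rel k x})

/-- The quotient map to the Grothendieck ring. -/
noncomputable def toK0 (k : Type) [Field k] : FreeCommRing (Variety k) →+* K0 k :=
  Ideal.Quotient.mk (Ideal.span {x | Rel k x})

/-- The class of a variety. -/
noncomputable def cls {k : Type} [Field k] (X : Variety k) : K0 k :=
  toK0 k (FreeCommRing.of X)

/-- The class of the affine line. -/
noncomputable def lef (k : Type) [Field k] : K0 k := cls (specVar k (Polynomial k))

/-- The localisation `K₀(Var_k)[L⁻¹]`. -/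
def Mot (k : Type) [Field k] : Type 1 := Localization.Away (lef k)

noncomputable instance instCommRingMot (k : Type) [Field k] : CommRing (Mot k) :=
  (inferInstance : CommRing (Localization.Away (lef k)))

noncomputable instance instAlgebraMot (k : Type) [Field k] : Algebra (K0 k) (Mot k) :=
  (inferInstance : Algebra (K0 k) (Localization.Away (lef k)))

instance instAwayMot (k : Type) [Field k] : IsLocalization.Away (lef k) (Mot k) :=
  (inferInstance : IsLocalization.Away (lef k) (Localization.Away (lef k)))

/-- The class of a variety in `K₀(Var_k)[L⁻¹]`. -/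
noncomputable def mcls {k : Type} [Field k] (X : Variety k) : Mot k := algebraMap (K0 k) (Mot k) (cls X)

/-- `L` as a unit of `K₀(Var_k)[L⁻¹]`. -/
noncomputable def Lu (k : Type) [Field k] : (Mot k)ˣ :=
  (IsLocalization.Away.algebraMap_isUnit (S := Mot k) (lef k)).unit

/-- The step `F_m` of the dimension filtration: the subgroup generated by the `[X] L^(-p)` with
`dim X - p ≤ -m`. -/
noncomputable def Fil (k : Type) [Field k] (m : ℤ) : AddSubgroup (Mot k) :=
  AddSubgroup.closure {x | ∃ (X : Variety k) (n : ℕ) (p : ℤ), topologicalKrullDim X.X ≤ n ∧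
    (n : ℤ) - p ≤ -m ∧ x = mcls X * ((Lu k ^ (-p) : (Mot k)ˣ) : Mot k)}

variable {k : Type} [Field k]

theorem toK0_rel {x : FreeCommRing (Variety k)} (h : Rel k x) : toK0 k x = 0 :=
  Ideal.Quotient.eq_zero_iff_mem.2 (Ideal.subset_span h)

theorem toK0_surjective : Function.Surjective (toK0 k) := Ideal.Quotient.mk_surjective

theorem cls_iso {X Y : Variety k} (e : X.X ≅ Y.X) (h : e.hom ≫ Y.str = X.str) :
    cls X = cls Y := by
  rw [← sub_eq_zero]
  unfold cls
  rw [← map_sub]
  exact toK0_rel (Rel.iso X Y e h)

theorem cls_scissors {X Z U : Variety k} (i : Z.X ⟶ X.X) (j : U.X ⟶ X.X)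
    (hi : IsClosedImmersion i) (hj : IsOpenImmersion j) (hik : i ≫ X.str = Z.str)
    (hjk : j ≫ X.str = U.str) (h : Set.range j = (Set.range i)ᶜ) :
    cls X = cls Z + cls U := by
  rw [← sub_eq_zero]
  unfold cls
  rw [← map_add, ← map_sub]
  exact toK0_rel (Rel.scissors X Z U i j hi hj hik hjk h)

theorem cls_prod {P X Y : Variety k} (p : P.X ⟶ X.X) (q : P.X ⟶ Y.X)
    (h : IsPullback p q X.str Y.str) (hp : p ≫ X.str = P.str) :
    cls P = cls X * cls Y := by
  rw [← sub_eq_zero]
  unfold cls
  rw [← map_mul, ← map_sub]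
  exact toK0_rel (Rel.prod P X Y p q h hp)

theorem cls_point (X : Variety k) (h : IsIso X.str) : cls X = 1 := by
  rw [← sub_eq_zero]
  unfold cls
  rw [← map_one (toK0 k), ← map_sub]
  exact toK0_rel (Rel.point X h)

/-- A function on varieties which satisfies the relations defines a ring homomorphism. -/
noncomputable def liftRing {R : Type*} [CommRing R] (f : Variety k → R)
    (h1 : ∀ (X Y : Variety k) (e : X.X ≅ Y.X), e.hom ≫ Y.str = X.str → f X = f Y)
    (h2 : ∀ (X Z U : Variety k) (i : Z.X ⟶ X.X) (j : U.X ⟶ X.X), IsClosedImmersion i →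
      IsOpenImmersion j → i ≫ X.str = Z.str → j ≫ X.str = U.str →
      Set.range j = (Set.range i)ᶜ → f X = f Z + f U)
    (h3 : ∀ (P X Y : Variety k) (p : P.X ⟶ X.X) (q : P.X ⟶ Y.X), IsPullback p q X.str Y.str →
      p ≫ X.str = P.str → f P = f X * f Y)
    (h4 : ∀ X : Variety k, IsIso X.str → f X = 1) : K0 k →+* R :=
  Ideal.Quotient.lift (Ideal.span {x | Rel k x}) (FreeCommRing.lift f) (by
    intro a ha
    have : Ideal.span {x | Rel k x} ≤ RingHom.ker (FreeCommRing.lift f) := by
      rw [Ideal.span_le]
      intro x hx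
      rw [SetLike.mem_coe, RingHom.mem_ker]
      cases hx with
      | iso X Y e h => rw [map_sub, FreeCommRing.lift_of, FreeCommRing.lift_of, h1 X Y e h, sub_self]
      | scissors X Z U i j hi hj hik hjk h =>
        rw [map_sub, map_add, FreeCommRing.lift_of, FreeCommRing.lift_of, FreeCommRing.lift_of,
          h2 X Z U i j hi hj hik hjk h, sub_self]
      | prod P X Y p q h hp =>
        rw [map_sub, map_mul, FreeCommRing.lift_of, FreeCommRing.lift_of, FreeCommRing.lift_of,
          h3 P X Y p q h hp, sub_self]
      | point X h => rw [map_sub, map_one, FreeCommRing.lift_of, h4 X h, sub_self]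
    exact this ha)

theorem liftRing_cls {R : Type*} [CommRing R] (f : Variety k → R) (h1) (h2) (h3) (h4)
    (X : Variety k) : liftRing (k := k) f h1 h2 h3 h4 (cls X) = f X := by
  unfold liftRing cls toK0
  exact (Ideal.Quotient.lift_mk _ _ _).trans (FreeCommRing.lift_of _ _)

end Pool.Agent.H519R3.K0V
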