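import Pool.Agent.H519R3.K0V.Bound

set_option autoImplicit false

open AlgebraicGeometry CategoryTheory Limits Pool.Agent.Helper834.EC

namespace Pool.Agent.H519R3.K0V

attribute [local instance] specializationOrder in
theorem topDim_eq (X : Scheme.{0}) : topologicalKrullDim X = Order.krullDim X := by
  unfold topologicalKrullDim
  exact Order.krullDim_eq_of_orderIso irreducibleSetEquivPoints

/-- The dimension can be computed on an open cover. -/
theorem dim_le_of_cover {X : Scheme.{0}} {n : WithBot ℕ∞} (h : ∀ x : X, ∃ (U : Scheme.{0})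
    (g : U ⟶ X), IsOpenImmersion g ∧ x ∈ Set.range g ∧ topologicalKrullDim U ≤ n) :
    topologicalKrullDim X ≤ n := by
  rw [topDim_eq, Order.krullDim_eq_iSup_coheight]
  refine iSup_le fun x => ?_
  obtain ⟨U, g, hg, ⟨y, rfl⟩, hU⟩ := h x
  have h1 : @Order.coheight X _ (g.base y) = Order.coheight y := coheight_eq_of_isOpenImmersion g
  rw [topDim_eq] at hU
  have h2 := Order.coheight_le_krullDim y
  change ((Order.coheight (g.base y) : ℕ∞) : WithBot ℕ∞) ≤ n
  rw [h1]
  exact h2.trans hU

open TensorProduct in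
theorem isIntegral_tensorMap {k R S A B : Type} [CommRing k] [CommRing R] [CommRing S] [CommRing A]
    [CommRing B] [Algebra k R] [Algebra k S] [Algebra k A] [Algebra k B] (g : R →ₐ[k] A)
    (h : S →ₐ[k] B) (hg : g.IsIntegral) (hh : h.IsIntegral) :
    (Algebra.TensorProduct.map g h).IsIntegral := by
  have key : ∀ z : A ⊗[k] B,
      (Algebra.TensorProduct.map g h : R ⊗[k] S →+* A ⊗[k] B).IsIntegralElem z := by
    intro z
    induction z using TensorProduct.induction_on with
    | zero => exact RingHom.isIntegralElem_zero _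
    | add x y hx hy => exact hx.add _ hy
    | tmul a b =>
      have h1 : a ⊗ₜ[k] b = (a ⊗ₜ[k] (1 : B)) * ((1 : A) ⊗ₜ[k] b) := by
        rw [Algebra.TensorProduct.tmul_mul_tmul, mul_one, one_mul]
      rw [h1]
      refine RingHom.IsIntegralElem.mul _ ?_ ?_
      · obtain ⟨p, hp, hp2⟩ := hg a
        refine ⟨p.map (Algebra.TensorProduct.includeLeft : R →ₐ[k] R ⊗[k] S).toRingHom, hp.map _, ?_⟩
        rw [Polynomial.eval₂_map]
        have h2 := congrArg (Algebra.TensorProduct.includeLeft : A →ₐ[k] A ⊗[k] B) hp2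
        rw [map_zero] at h2
        rw [← h2]
        have h3 := Polynomial.hom_eval₂ p (g : R →+* A)
          (Algebra.TensorProduct.includeLeft : A →ₐ[k] A ⊗[k] B).toRingHom a
        refine Eq.trans ?_ h3.symm
        congr 1
        ext r
        simp
      · obtain ⟨p, hp, hp2⟩ := hh b
        refine ⟨p.map (Algebra.TensorProduct.includeRight : S →ₐ[k] R ⊗[k] S).toRingHom, hp.map _, ?_⟩
        rw [Polynomial.eval₂_map]
        have h2 := congrArg (Algebra.TensorProduct.includeRight : B →ₐ[k] A ⊗[k] B) hp2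
        rw [map_zero] at h2
        rw [← h2]
        have h3 := Polynomial.hom_eval₂ p (h : S →+* B)
          (Algebra.TensorProduct.includeRight : B →ₐ[k] A ⊗[k] B).toRingHom b
        refine Eq.trans ?_ h3.symm
        congr 1
        ext r
        simp
  exact key

open TensorProduct in
/-- The dimension of a product of affine varieties. -/
theorem ringKrullDim_tensor_le (k A B : Type) [Field k] [CommRing A] [CommRing B] [Algebra k A]
    [Algebra k B] [Algebra.FiniteType k A] [Algebra.FiniteType k B] {m n : ℕ}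
    (hA : ringKrullDim A ≤ m) (hB : ringKrullDim B ≤ n) :
    ringKrullDim (A ⊗[k] B) ≤ ((m + n : ℕ) : WithBot ℕ∞) := by
  rcases subsingleton_or_nontrivial A with hs | hn
  · have : Subsingleton (A ⊗[k] B) := by
      have h : (1 : A ⊗[k] B) = 0 := by
        rw [Algebra.TensorProduct.one_def, Subsingleton.elim (1 : A) 0, TensorProduct.zero_tmul]
      exact subsingleton_of_zero_eq_one h.symm
    rw [ringKrullDim_eq_bot_of_subsingleton]
    exact bot_le
  rcases subsingleton_or_nontrivial B with hs' | hn'
  · have : Subsingleton (A ⊗[k] B) := by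
      have h : (1 : A ⊗[k] B) = 0 := by
        rw [Algebra.TensorProduct.one_def, Subsingleton.elim (1 : B) 0, TensorProduct.tmul_zero]
      exact subsingleton_of_zero_eq_one h.symm
    rw [ringKrullDim_eq_bot_of_subsingleton]
    exact bot_le
  obtain ⟨s, g, hs, -, hg⟩ := noether k A hA
  obtain ⟨t, g', ht, -, hg'⟩ := noether k B hB
  let Φ := Algebra.TensorProduct.map g g'
  have hΦ : Φ.IsIntegral := by
    exact isIntegral_tensorMap g g' hg hg'
  let _ : Algebra (MvPolynomial (Fin s) k ⊗[k] MvPolynomial (Fin t) k) (A ⊗[k] B) :=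
    Φ.toRingHom.toAlgebra
  have : Algebra.IsIntegral (MvPolynomial (Fin s) k ⊗[k] MvPolynomial (Fin t) k) (A ⊗[k] B) := ⟨hΦ⟩
  refine (ringKrullDim_le_of_integral (R := MvPolynomial (Fin s) k ⊗[k] MvPolynomial (Fin t) k)).trans ?_
  rw [ringKrullDim_eq_of_ringEquiv (MvPolynomial.algebraTensorAlgEquiv k (MvPolynomial (Fin s) k)
    (σ := Fin t)).toRingEquiv]
  rw [MvPolynomial.ringKrullDim_of_isNoetherianRing, MvPolynomial.ringKrullDim_of_isNoetherianRing,
    ringKrullDim_eq_zero_of_field]
  simp only [zero_add, Nat.card_eq_fintype_card, Fintype.card_fin]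
  exact_mod_cast Nat.add_le_add hs ht

end Pool.Agent.H519R3.K0V
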