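import Pool.Agent.H519R3.K0V.Counter

set_option autoImplicit false

open AlgebraicGeometry CategoryTheory Limits

namespace Pool.Agent.H519R3.K0V

variable (k : Type) [Field k]

/-- The polynomial which is inverted for the coprime pairs. -/
noncomputable def discPoly (i j : ℕ) : MvPolynomial (Fin i ⊕ Fin j) k :=
  (univFst k i j).coeff 0 * (univSnd k i j).coeff 0 * (univFst k i j).resultant (univSnd k i j)

theorem discPoly_ne_zero (a : ℕ) : discPoly k (a + 1) (a + 1) ≠ 0 := by
  let K := RatFunc k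
  let t : K := RatFunc.X
  have ht : t ≠ 0 := RatFunc.X_ne_zero
  have ht1 : t - 1 ≠ 0 := by
    intro h
    have h2 : t = 1 := sub_eq_zero.1 h
    have h3 : (algebraMap (Polynomial k) (RatFunc k)) Polynomial.X =
      (algebraMap (Polynomial k) (RatFunc k)) 1 := by
      rw [RatFunc.algebraMap_X, map_one]; exact h2
    have h4 := RatFunc.algebraMap_injective k h3
    exact Polynomial.X_ne_C 1 (h4.trans (by simp))
  let c : Fin (a + 1) → K := fun r => if r = 0 then 1 else 0
  let d : Fin (a + 1) → K := fun r => if r = 0 then t else 0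
  let ev : MvPolynomial (Fin (a + 1) ⊕ Fin (a + 1)) k →+* K :=
    MvPolynomial.eval₂Hom (algebraMap k K) (Sum.elim c d)
  have hf : (univFst k (a + 1) (a + 1)).map ev = monicPoly (a + 1) c := by
    unfold univFst
    rw [map_monicPoly]
    congr 1
    funext r
    simp [ev]
  have hg : (univSnd k (a + 1) (a + 1)).map ev = monicPoly (a + 1) d := by
    unfold univSnd
    rw [map_monicPoly]
    congr 1
    funext r
    simp [ev]
  have hdiff : monicPoly (a + 1) d - monicPoly (a + 1) c = Polynomial.C (t - 1) := by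
    unfold monicPoly
    rw [Fin.sum_univ_succ, Fin.sum_univ_succ]
    simp [c, d, Fin.succ_ne_zero]
  have hcop : IsCoprime (monicPoly (a + 1) c) (monicPoly (a + 1) d) := by
    refine ⟨-Polynomial.C (t - 1)⁻¹, Polynomial.C (t - 1)⁻¹, ?_⟩
    have : -Polynomial.C (t - 1)⁻¹ * monicPoly (a + 1) c +
        Polynomial.C (t - 1)⁻¹ * monicPoly (a + 1) d =
        Polynomial.C (t - 1)⁻¹ * (monicPoly (a + 1) d - monicPoly (a + 1) c) := by ring
    rw [this, hdiff, ← Polynomial.C_mul, inv_mul_cancel₀ ht1, Polynomial.C_1]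
  have hres := Polynomial.resultant_ne_zero _ _ hcop
  intro h
  have h0 := congrArg ev h
  unfold discPoly at h0
  rw [map_zero, map_mul, map_mul] at h0
  have h1 : ev ((univFst k (a + 1) (a + 1)).coeff 0) = 1 := by
    rw [← Polynomial.coeff_map, hf, coeff_zero_monicPoly_succ]
    simp [c]
  have h2 : ev ((univSnd k (a + 1) (a + 1)).coeff 0) = t := by
    rw [← Polynomial.coeff_map, hg, coeff_zero_monicPoly_succ]
    simp [d]
  have h3 : ev ((univFst k (a + 1) (a + 1)).resultant (univSnd k (a + 1) (a + 1))) =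
      (monicPoly (a + 1) c).resultant (monicPoly (a + 1) d) := by
    rw [← Polynomial.resultant_map_map, hf, hg]
    unfold univFst univSnd
    rw [natDegree_monicPoly, natDegree_monicPoly, natDegree_monicPoly, natDegree_monicPoly]
  rw [h1, h2, h3, one_mul] at h0
  rcases mul_eq_zero.1 h0 with h4 | h4
  · exact ht h4
  · exact hres h4

theorem le_of_add_one_le {x : WithBot ℕ∞} {n : ℕ} (h : x + 1 ≤ ((n + 1 : ℕ) : WithBot ℕ∞)) :
    x ≤ n := by
  induction x with
  | bot => exact bot_le
  | coe x =>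
    have h1 : x + 1 ≤ ((n : ℕ∞) + 1) := by exact_mod_cast h
    have h2 : x ≤ (n : ℕ∞) := by
      induction x using ENat.recTopCoe with
      | top => simp at h1
      | coe x =>
        have : x + 1 ≤ n + 1 := by exact_mod_cast h1
        exact_mod_cast Nat.le_of_succ_le_succ this
    exact_mod_cast h2

variable {k}

theorem dim_hypersurface {n : ℕ} (σ : Type) [Fintype σ] (hσ : Fintype.card σ = n + 1)
    (h : MvPolynomial σ k) (hh : h ≠ 0) :
    ringKrullDim (MvPolynomial σ k ⧸ Ideal.span {h}) ≤ n := by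
  apply le_of_add_one_le
  refine (ringKrullDim_quotient_succ_le_of_nonZeroDivisor
    (mem_nonZeroDivisors_of_ne_zero hh)).trans ?_
  rw [MvPolynomial.ringKrullDim_of_isNoetherianRing, ringKrullDim_eq_zero_of_field,
    Nat.card_eq_fintype_card, hσ]
  simp

theorem dim_localization {A : Type} [CommRing A] (f : A) :
    ringKrullDim (Localization.Away f) ≤ ringKrullDim A := by
  rw [← PrimeSpectrum.topologicalKrullDim_eq_ringKrullDim,
    ← PrimeSpectrum.topologicalKrullDim_eq_ringKrullDim]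
  exact (PrimeSpectrum.localization_away_isOpenEmbedding (Localization.Away f)
    f).isInducing.topologicalKrullDim_le

theorem dim_coprime (i j : ℕ) : ringKrullDim (Coprime k i j) ≤ ((i + j : ℕ) : WithBot ℕ∞) := by
  refine (dim_localization _).trans ?_
  rw [MvPolynomial.ringKrullDim_of_isNoetherianRing, ringKrullDim_eq_zero_of_field,
    Nat.card_eq_fintype_card]
  simp

theorem mcls_coprime_top (a : ℕ) : mcls (specVar k (Coprime k (a + 1) (a + 1))) -
    ((Lu k ^ ((2 * a + 2 : ℕ) : ℤ) : (Mot k)ˣ) : Mot k) ∈ Fil k (-(2 * a + 1 : ℕ)) := by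
  have h := cls_hypersurface (k := k) (discPoly k (a + 1) (a + 1))
  rw [cls_affine_fintype] at h
  have h1 : mcls (specVar k (Coprime k (a + 1) (a + 1))) -
      ((Lu k ^ ((2 * a + 2 : ℕ) : ℤ) : (Mot k)ˣ) : Mot k) =
      - mcls (specVar k (MvPolynomial (Fin (a + 1) ⊕ Fin (a + 1)) k ⧸
        Ideal.span {discPoly k (a + 1) (a + 1)})) := by
    have h2 := congrArg (algebraMap (K0 k) (Mot k)) h
    rw [map_add, map_pow] at h2
    have h3 : Fintype.card (Fin (a + 1) ⊕ Fin (a + 1)) = 2 * a + 2 := by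
      simp; ring
    rw [h3] at h2
    have h4 : ((Lu k ^ ((2 * a + 2 : ℕ) : ℤ) : (Mot k)ˣ) : Mot k) =
        algebraMap (K0 k) (Mot k) (lef k) ^ (2 * a + 2) := by
      rw [zpow_natCast, Units.val_pow_eq_pow_val]
      rfl
    rw [h4, h2]
    change _ - (mcls _ + mcls (specVar k (Coprime k (a + 1) (a + 1)))) = _
    ring
  rw [h1]
  refine neg_mem (mcls_mem _ ?_)
  rw [dim_specVar]
  exact dim_hypersurface (n := 2 * a + 1) _ (by simp; ring) _ (discPoly_ne_zero k a)

theorem mcls_pi {ι : Type} [Fintype ι] (A : ι → Type) [∀ i, CommRing (A i)]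
    [∀ i, Algebra k (A i)] [∀ i, Algebra.FiniteType k (A i)] :
    mcls (specVar k (∀ i, A i)) = ∑ i, mcls (specVar k (A i)) := by
  unfold mcls
  rw [cls_pi, map_sum]

/-- In even degrees the class of `Z` is `L^(2a)` up to lower dimension. -/
theorem mcls_even (a : ℕ) : mcls (coprimeCycles k (2 * (a + 1)) (2 * (a + 1))) -
    ((Lu k ^ ((2 * a + 2 : ℕ) : ℤ) : (Mot k)ˣ) : Mot k) ∈ Fil k (-(2 * a + 1 : ℕ)) := by
  classical
  unfold coprimeCycles
  rw [mcls_pi]
  let m₀ : {m : Fin (2 * (a + 1) / 2 + 1) × Fin (2 * (a + 1) / 2 + 1) //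
    min (2 * (a + 1) - 2 * (m.1 : ℕ)) (2 * (a + 1) - 2 * (m.2 : ℕ)) = 0} :=
    ⟨(⟨a + 1, by omega⟩, ⟨a + 1, by omega⟩), by simp⟩
  rw [← Finset.add_sum_erase _ _ (Finset.mem_univ m₀), add_sub_right_comm]
  refine add_mem (mcls_coprime_top a) (sum_mem fun m hm => ?_)
  have hne := Finset.ne_of_mem_erase hm
  have hlt : (m.1.1 : ℕ) + (m.1.2 : ℕ) ≤ 2 * a + 1 := by
    have h1 := m.1.1.2
    have h2 := m.1.2.2
    by_contra hcon
    apply hne
    apply Subtype.ext
    apply Prod.ext
    · apply Fin.ext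
      change (m.1.1 : ℕ) = a + 1
      omega
    · apply Fin.ext
      change (m.1.2 : ℕ) = a + 1
      omega
  have h3 := mcls_mem (specVar k (Coprime k m.1.1 m.1.2)) (n := (m.1.1 : ℕ) + (m.1.2 : ℕ))
    (by rw [dim_specVar]; exact dim_coprime _ _)
  exact Fil_antitone (by omega) h3

end Pool.Agent.H519R3.K0V
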