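import Pool.Agent.H519R3.K0V.Dim

set_option autoImplicit false

open AlgebraicGeometry CategoryTheory Limits Pool.Agent.Helper834.EC

namespace Pool.Agent.H519R3.K0V

variable {k : Type} [Field k]

theorem exists_dim (X : Variety k) : ∃ n : ℕ, topologicalKrullDim X.X ≤ n := by
  obtain ⟨ι, hι, c, hc⟩ := exists_charts X
  have : Fintype ι := Fintype.ofFinite ι
  have h : ∀ i, ∃ n : ℕ, ringKrullDim (c i).A ≤ n := by
    intro i
    obtain ⟨l, f, hf⟩ := Algebra.FiniteType.iff_quotient_mvPolynomial''.1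
      (inferInstance : Algebra.FiniteType k (c i).A)
    refine ⟨l, (ringKrullDim_le_of_surjective (f : MvPolynomial (Fin l) k →+* (c i).A) hf).trans ?_⟩
    rw [MvPolynomial.ringKrullDim_of_isNoetherianRing, ringKrullDim_eq_zero_of_field]
    simp
  choose n hn using h
  refine ⟨∑ i, n i, dim_le_of_cover fun x => ?_⟩
  obtain ⟨i, hi⟩ := hc x
  refine ⟨_, (c i).g, inferInstance, hi, ?_⟩
  have h2 : topologicalKrullDim (Spec (CommRingCat.of (c i).A)) = ringKrullDim (c i).A :=
    PrimeSpectrum.topologicalKrullDim_eq_ringKrullDim _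
  rw [h2]
  refine (hn i).trans ?_
  exact_mod_cast Finset.single_le_sum (f := n) (fun i _ => Nat.zero_le _) (Finset.mem_univ i)

/-- The product of two varieties. -/
noncomputable def prodVar (X Y : Variety k) : Variety k where
  X := pullback X.str Y.str
  str := pullback.fst X.str Y.str ≫ X.str
  sep := inferInstance
  lft := inferInstance
  qc := inferInstance

theorem cls_prodVar (X Y : Variety k) : cls (prodVar X Y) = cls X * cls Y :=
  cls_prod (P := prodVar X Y) (pullback.fst X.str Y.str) (pullback.snd X.str Y.str)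
    (IsPullback.of_hasPullback _ _) rfl

theorem dim_prodVar {X Y : Variety k} {m n : ℕ} (hX : topologicalKrullDim X.X ≤ m)
    (hY : topologicalKrullDim Y.X ≤ n) :
    topologicalKrullDim (prodVar X Y).X ≤ ((m + n : ℕ) : WithBot ℕ∞) := by
  obtain ⟨ι, hι, c, hc⟩ := exists_charts X
  obtain ⟨ι', hι', c', hc'⟩ := exists_charts Y
  change topologicalKrullDim (pullback X.str Y.str : Scheme.{0}) ≤ _
  refine dim_le_of_cover fun x => ?_
  obtain ⟨i, hi⟩ := hc (pullback.fst X.str Y.str x)
  obtain ⟨j, hj⟩ := hc' (pullback.snd X.str Y.str x)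
  let e := pullbackSpecIso k (c i).A (c' j).A
  let g := pullback.map (Spec.map (CommRingCat.ofHom (algebraMap k (c i).A)))
    (Spec.map (CommRingCat.ofHom (algebraMap k (c' j).A))) X.str Y.str (c i).g (c' j).g
    (𝟙 _) (by rw [(c i).hg]; simp) (by rw [(c' j).hg]; simp)
  have hg : IsOpenImmersion g := inferInstance
  refine ⟨_, g, hg, ?_, ?_⟩
  · have := Scheme.Pullback.range_map (Spec.map (CommRingCat.ofHom (algebraMap k (c i).A)))
      (Spec.map (CommRingCat.ofHom (algebraMap k (c' j).A))) X.str Y.str (c i).g (c' j).g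
      (𝟙 _) (by rw [(c i).hg]; simp) (by rw [(c' j).hg]; simp)
    change x ∈ Set.range g
    rw [this]
    exact ⟨hi, hj⟩
  · have h2 : topologicalKrullDim (Spec (CommRingCat.of (TensorProduct k (c i).A (c' j).A))) =
      ringKrullDim (TensorProduct k (c i).A (c' j).A) :=
      PrimeSpectrum.topologicalKrullDim_eq_ringKrullDim _
    rw [IsHomeomorph.topologicalKrullDim_eq _ e.hom.homeomorph.isHomeomorph, h2]
    exact ringKrullDim_tensor_le k _ _ ((chart_dim_le (c i)).trans hX)
      ((chart_dim_le (c' j)).trans hY)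

theorem mcls_prodVar (X Y : Variety k) : mcls (prodVar X Y) = mcls X * mcls Y := by
  unfold mcls
  rw [cls_prodVar, map_mul]

theorem Lu_eq : ((Lu k : (Mot k)ˣ) : Mot k) = mcls (specVar k (Polynomial k)) := rfl

theorem gen_mem {X : Variety k} {n : ℕ} {p m : ℤ} (hX : topologicalKrullDim X.X ≤ n)
    (h : (n : ℤ) - p ≤ -m) : mcls X * ((Lu k ^ (-p) : (Mot k)ˣ) : Mot k) ∈ Fil k m :=
  AddSubgroup.subset_closure ⟨X, n, p, hX, h, rfl⟩

theorem Fil_antitone {m m' : ℤ} (h : m ≤ m') : Fil k m' ≤ Fil k m := by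
  unfold Fil
  refine AddSubgroup.closure_mono ?_
  rintro x ⟨X, n, p, hX, hp, rfl⟩
  exact ⟨X, n, p, hX, by omega, rfl⟩

theorem dim_specVar (A : Type) [CommRing A] [Algebra k A] [Algebra.FiniteType k A] :
    topologicalKrullDim (specVar k A).X = ringKrullDim A :=
  PrimeSpectrum.topologicalKrullDim_eq_ringKrullDim _

theorem cls_specVar_self : cls (specVar k k) = 1 := by
  refine cls_point _ ?_
  change IsIso (Spec.map (CommRingCat.ofHom (algebraMap k k)))
  have : CommRingCat.ofHom (algebraMap k k) = 𝟙 (CommRingCat.of k) := rfl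
  rw [this]
  infer_instance

theorem one_mem : (1 : Mot k) ∈ Fil k 0 := by
  have h := gen_mem (k := k) (X := specVar k k) (n := 0) (p := 0) (m := 0)
    (by rw [dim_specVar, ringKrullDim_eq_zero_of_field]; rfl) (by simp)
  simp only [neg_zero, zpow_zero, Units.val_one, mul_one] at h
  unfold mcls at h
  rwa [cls_specVar_self, map_one] at h

theorem mul_mem_Fil {m m' : ℤ} {x y : Mot k} (hx : x ∈ Fil k m) (hy : y ∈ Fil k m') :
    x * y ∈ Fil k (m + m') := by
  unfold Fil at hx
  induction hx using AddSubgroup.closure_induction with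
  | zero => rw [zero_mul]; exact zero_mem _
  | add a b _ _ ha hb => rw [add_mul]; exact add_mem ha hb
  | neg a _ ha => rw [neg_mul]; exact neg_mem ha
  | mem a ha =>
    unfold Fil at hy
    induction hy using AddSubgroup.closure_induction with
    | zero => rw [mul_zero]; exact zero_mem _
    | add a b _ _ ha hb => rw [mul_add]; exact add_mem ha hb
    | neg a _ ha => rw [mul_neg]; exact neg_mem ha
    | mem b hb =>
      obtain ⟨X, n, p, hX, hp, rfl⟩ := ha
      obtain ⟨Y, n', p', hY, hp', rfl⟩ := hb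
      have h1 : mcls X * ((Lu k ^ (-p) : (Mot k)ˣ) : Mot k) *
          (mcls Y * ((Lu k ^ (-p') : (Mot k)ˣ) : Mot k)) =
          mcls (prodVar X Y) * ((Lu k ^ (-(p + p')) : (Mot k)ˣ) : Mot k) := by
        rw [mcls_prodVar, neg_add, zpow_add, Units.val_mul]
        ring
      rw [h1]
      exact gen_mem (dim_prodVar hX hY) (by push_cast; omega)

theorem Lu_zpow_mem (p : ℤ) : ((Lu k ^ p : (Mot k)ˣ) : Mot k) ∈ Fil k (-p) := by
  have h := gen_mem (k := k) (X := specVar k k) (n := 0) (p := -p) (m := -p)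
    (by rw [dim_specVar, ringKrullDim_eq_zero_of_field]; rfl) (by simp)
  unfold mcls at h
  rwa [cls_specVar_self, map_one, one_mul, neg_neg] at h

theorem mcls_mem (X : Variety k) {n : ℕ} (hX : topologicalKrullDim X.X ≤ n) :
    mcls X ∈ Fil k (-n) := by
  have h := gen_mem (k := k) (X := X) (n := n) (p := 0) (m := -n) hX (by simp)
  simpa using h

/-- Every element lies in some step of the filtration. -/
theorem exists_mem_Fil (x : Mot k) : ∃ m : ℤ, x ∈ Fil k m := by
  have hK : ∀ y : K0 k, ∃ m : ℤ, algebraMap (K0 k) (Mot k) y ∈ Fil k m := by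
    intro y
    obtain ⟨z, rfl⟩ := toK0_surjective y
    induction z using FreeCommRing.induction_on with
    | neg_one =>
      refine ⟨0, ?_⟩
      rw [map_neg, map_one, map_neg, map_one]
      exact neg_mem one_mem
    | of X =>
      obtain ⟨n, hn⟩ := exists_dim X
      exact ⟨-n, mcls_mem X hn⟩
    | add a b ha hb =>
      obtain ⟨m, hm⟩ := ha
      obtain ⟨m', hm'⟩ := hb
      refine ⟨min m m', ?_⟩
      rw [map_add, map_add]
      exact add_mem (Fil_antitone (min_le_left _ _) hm) (Fil_antitone (min_le_right _ _) hm')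
    | mul a b ha hb =>
      obtain ⟨m, hm⟩ := ha
      obtain ⟨m', hm'⟩ := hb
      refine ⟨m + m', ?_⟩
      rw [map_mul, map_mul]
      exact mul_mem_Fil hm hm'
  obtain ⟨⟨y, s⟩, hs⟩ := IsLocalization.surj (Submonoid.powers (lef k)) x
  obtain ⟨n, hn⟩ := s.2
  obtain ⟨m, hm⟩ := hK y
  refine ⟨m + n, ?_⟩
  have h1 : x = algebraMap (K0 k) (Mot k) y * ((Lu k ^ (-(n : ℤ)) : (Mot k)ˣ) : Mot k) := by
    rw [← hs]
    simp only
    rw [← hn, map_pow]
    have h2 : algebraMap (K0 k) (Mot k) (lef k) = ((Lu k : (Mot k)ˣ) : Mot k) := rfl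
    rw [h2, zpow_neg, zpow_natCast, mul_assoc, ← Units.val_pow_eq_pow_val, Units.mul_inv, mul_one]
  rw [h1]
  have h3 := mul_mem_Fil hm (Lu_zpow_mem (k := k) (-(n : ℤ)))
  rwa [neg_neg] at h3

end Pool.Agent.H519R3.K0V
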