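import Pool.Agent.H519R3.K0V.Top

set_option autoImplicit false

open AlgebraicGeometry CategoryTheory Limits Filter Topology

namespace Pool.Agent.H519R3.K0V

variable (k : Type) [Field k]

theorem mcls_cycles (d : ℕ) : mcls (cycles k d) = ((Lu k ^ ((d / 2 : ℕ) : ℤ) : (Mot k)ˣ) : Mot k) := by
  unfold mcls
  rw [cls_cycles, map_pow, zpow_natCast, Units.val_pow_eq_pow_val]
  rfl

theorem mcls_prod_cycles (d e : ℕ) : mcls (prodVar (cycles k d) (cycles k e)) =
    ((Lu k ^ ((d / 2 + e / 2 : ℕ) : ℤ) : (Mot k)ˣ) : Mot k) := by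
  rw [mcls_prodVar, mcls_cycles, mcls_cycles, ← Units.val_mul, ← zpow_add]
  push_cast
  rfl

/-- The ratio `[Z] / [X_d × X_e]`. -/
noncomputable def ratio (d e : ℕ) : Mot k :=
  mcls (coprimeCycles k d e) * ((Lu k ^ (-((d / 2 + e / 2 : ℕ) : ℤ)) : (Mot k)ˣ) : Mot k)

theorem ratio_eq (d e : ℕ) : hcls (coprimeCycles k d e) *
    Ring.inverse (hcls (prodVar (cycles k d) (cycles k e))) = toHat k (ratio k d e) := by
  unfold hcls
  rw [mcls_prod_cycles]
  have h : toHat k (((Lu k ^ ((d / 2 + e / 2 : ℕ) : ℤ) : (Mot k)ˣ) : Mot k)) =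
      ((Units.map (toHat k).toMonoidHom
        (Lu k ^ ((d / 2 + e / 2 : ℕ) : ℤ)) : (MotHat k)ˣ) : MotHat k) := rfl
  rw [h, Ring.inverse_unit, ← map_inv, ← zpow_neg]
  unfold ratio
  rw [map_mul]
  rfl

theorem ratio_odd (a : ℕ) : ratio k (2 * a + 1) (2 * a + 1) = 0 := by
  unfold ratio mcls
  rw [cls_coprime_odd, map_zero, zero_mul]

theorem ratio_even (a : ℕ) : ratio k (2 * (a + 1)) (2 * (a + 1)) - 1 ∈ Fil k 1 := by
  have h1 := mul_mem_Fil (mcls_even (k := k) a) (Lu_zpow_mem (k := k) (-((2 * a + 2 : ℕ) : ℤ)))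
  have h2 : ratio k (2 * (a + 1)) (2 * (a + 1)) - 1 =
      (mcls (coprimeCycles k (2 * (a + 1)) (2 * (a + 1))) -
      ((Lu k ^ ((2 * a + 2 : ℕ) : ℤ) : (Mot k)ˣ) : Mot k)) *
        ((Lu k ^ (-((2 * a + 2 : ℕ) : ℤ)) : (Mot k)ˣ) : Mot k) := by
    unfold ratio
    have h3 : 2 * (a + 1) / 2 + 2 * (a + 1) / 2 = 2 * a + 2 := by omega
    rw [h3, sub_mul, ← Units.val_mul, ← zpow_add, add_neg_cancel, zpow_zero, Units.val_one]
  rw [h2]
  refine Fil_antitone ?_ h1
  push_cast
  omega

theorem nontrivial_iff : Nontrivial (MotHat k) ↔ (1 : Mot k) ∉ Fil k 1 := by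
  constructor
  · intro h h1
    have hm : ∀ m : ℕ, (1 : Mot k) ∈ Fil k m := by
      intro m
      induction m with
      | zero => exact_mod_cast one_mem
      | succ m ih =>
        have := mul_mem_Fil ih h1
        rw [mul_one] at this
        exact_mod_cast this
    have h2 : Tendsto (fun _ : ℕ => (1 : Mot k)) atTop (𝓝 0) := by
      rw [(hasBasis_nhds_zero k).tendsto_right_iff]
      intro i _
      refine Eventually.of_forall fun _ => Fil_antitone ?_ (hm i.toNat)
      exact Int.self_le_toNat i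
    have h3 : Tendsto (fun _ : ℕ => toHat k 1) atTop (𝓝 (toHat k 0)) :=
      ((continuous_toHat k).tendsto 0).comp h2
    have h4 := tendsto_nhds_unique tendsto_const_nhds h3
    rw [map_one, map_zero] at h4
    exact one_ne_zero h4
  · intro h
    refine ⟨⟨toHat k 0, toHat k 1, fun h0 => h ?_⟩⟩
    have h1 : Tendsto (fun _ : ℕ => toHat k 1) atTop (𝓝 (toHat k 0)) := by
      rw [h0]
      exact tendsto_const_nhds
    have h2 := tendsto_toHat k h1
    obtain ⟨_, h3⟩ := (h2.eventually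
      ((hasBasis_nhds_zero k).mem_of_mem (i := (1 : ℤ)) trivial)).exists
    exact h3

theorem not_tendsto [Nontrivial (MotHat k)] (T : MotHat k) : ¬ Tendsto (fun d : ℕ × ℕ =>
      hcls (coprimeCycles k d.1 d.2) *
        Ring.inverse (hcls (prodVar (cycles k d.1) (cycles k d.2)))) atTop (𝓝 T) := by
  intro hT
  have he : Tendsto (fun a : ℕ => ((2 * (a + 1), 2 * (a + 1)) : ℕ × ℕ)) atTop atTop := by
    rw [← prod_atTop_atTop_eq]
    have : Tendsto (fun a : ℕ => 2 * (a + 1)) atTop atTop :=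
      tendsto_atTop_mono (fun a => by simp only [id]; omega) tendsto_id
    exact this.prodMk this
  have ho : Tendsto (fun a : ℕ => ((2 * a + 1, 2 * a + 1) : ℕ × ℕ)) atTop atTop := by
    rw [← prod_atTop_atTop_eq]
    have : Tendsto (fun a : ℕ => 2 * a + 1) atTop atTop :=
      tendsto_atTop_mono (fun a => by simp only [id]; omega) tendsto_id
    exact this.prodMk this
  have h1 := hT.comp he
  have h2 := hT.comp ho
  have h3 := h1.sub h2
  rw [sub_self] at h3
  have h4 : Tendsto (fun a => toHat k (ratio k (2 * (a + 1)) (2 * (a + 1)))) atTop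
      (𝓝 (toHat k 0)) := by
    rw [map_zero]
    refine (tendsto_congr fun a => ?_).1 h3
    change hcls (coprimeCycles k _ _) * Ring.inverse (hcls (prodVar (cycles k _) (cycles k _))) -
      hcls (coprimeCycles k _ _) * Ring.inverse (hcls (prodVar (cycles k _) (cycles k _))) = _
    rw [ratio_eq, ratio_eq, ratio_odd, map_zero, sub_zero]
  have h5 := tendsto_toHat k h4
  have h6 := (hasBasis_nhds_zero k).mem_of_mem (i := (1 : ℤ)) trivial
  obtain ⟨a, ha⟩ := (h5.eventually h6).exists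
  have h7 := sub_mem ha (ratio_even k a)
  rw [sub_sub_cancel] at h7
  exact (nontrivial_iff k).1 inferInstance h7

theorem isUnit_cycles (d : ℕ) : IsUnit (hcls (cycles k d)) := by
  unfold hcls
  rw [mcls_cycles]
  exact (Lu k ^ ((d / 2 : ℕ) : ℤ)).isUnit.map (toHat k)

end Pool.Agent.H519R3.K0V
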