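import Pool.Agent.H519R3.K0V.Even

set_option autoImplicit false

open AlgebraicGeometry CategoryTheory Limits

namespace Pool.Agent.H519R3.K0V

variable {k : Type} [Field k]

section

variable (F : Type) [Field F] [Algebra k F] [Finite F]

theorem isUnit_countHom_lef : IsUnit (countHom F (lef k)) := by
  unfold lef
  rw [countHom_cls, npts_lef]
  exact isUnit_iff_ne_zero.2 (by exact_mod_cast Nat.card_pos.ne')

/-- Counting points on the localised ring. -/
noncomputable def count : Mot k →+* ℚ :=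
  IsLocalization.Away.lift (lef k) (isUnit_countHom_lef F)

theorem count_mcls (X : Variety k) : count F (mcls X) = npts F X := by
  unfold count mcls
  rw [IsLocalization.Away.lift_eq, countHom_cls]

theorem count_Lu (p : ℤ) : count F ((Lu k ^ p : (Mot k)ˣ) : Mot k) = (Nat.card F : ℚ) ^ p := by
  have h1 : count F ((Lu k : (Mot k)ˣ) : Mot k) = (Nat.card F : ℚ) := by
    rw [Lu_eq, count_mcls, npts_lef]
  have h2 : count F ((Lu k ^ p : (Mot k)ˣ) : Mot k) =
      ((Units.map (count F : Mot k →+* ℚ).toMonoidHom (Lu k ^ p) : ℚˣ) : ℚ) := rfl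
  rw [h2, map_zpow, Units.val_zpow_eq_zpow_val]
  congr 1

end

theorem count_Fil {m : ℤ} {x : Mot k} (hx : x ∈ Fil k m) :
    ∃ C : ℚ, ∀ (F : Type) [Field F] [Algebra k F] [Finite F],
      |count F x| ≤ C * (Nat.card F : ℚ) ^ (-m) := by
  unfold Fil at hx
  induction hx using AddSubgroup.closure_induction with
  | zero => exact ⟨0, fun F _ _ _ => by simp⟩
  | add a b _ _ ha hb =>
    obtain ⟨C, hC⟩ := ha
    obtain ⟨D, hD⟩ := hb
    refine ⟨C + D, fun F _ _ _ => ?_⟩
    rw [map_add, add_mul]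
    exact (abs_add_le _ _).trans (add_le_add (hC F) (hD F))
  | neg a _ ha =>
    obtain ⟨C, hC⟩ := ha
    refine ⟨C, fun F _ _ _ => ?_⟩
    rw [map_neg, abs_neg]
    exact hC F
  | mem a ha =>
    obtain ⟨X, n, p, hX, hp, rfl⟩ := ha
    obtain ⟨C, hC⟩ := count_bound X hX
    refine ⟨C, fun F _ _ _ => ?_⟩
    have hq : (1 : ℚ) ≤ Nat.card F := by exact_mod_cast Nat.card_pos (α := F)
    have hq0 : (0 : ℚ) < Nat.card F := lt_of_lt_of_le one_pos hq
    rw [map_mul, count_mcls, count_Lu, abs_of_nonneg (by positivity)]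
    have h1 : (npts F X : ℚ) ≤ C * (Nat.card F : ℚ) ^ n := by exact_mod_cast hC F
    calc (npts F X : ℚ) * (Nat.card F : ℚ) ^ (-p)
        ≤ (C * (Nat.card F : ℚ) ^ n) * (Nat.card F : ℚ) ^ (-p) := by gcongr
      _ = C * (Nat.card F : ℚ) ^ ((n : ℤ) - p) := by
          rw [mul_assoc, ← zpow_natCast, ← zpow_add₀ hq0.ne', sub_eq_add_neg]
      _ ≤ C * (Nat.card F : ℚ) ^ (-m) := by
          gcongr

/-- Over a finite field, `1` does not lie in `F_1`. -/
theorem one_notMem (k : Type) [Field k] [Finite k] : (1 : Mot k) ∉ Fil k 1 := by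
  intro h
  obtain ⟨C, hC⟩ := count_Fil h
  obtain ⟨p, hp⟩ := CharP.exists k
  have hp' : p.Prime := (CharP.char_is_prime_or_zero k p).resolve_right
    (CharP.char_ne_zero_of_finite k p)
  have : Fact p.Prime := ⟨hp'⟩
  obtain ⟨n, hn⟩ := exists_nat_gt C
  have hn0 : NeZero (n + 1) := ⟨Nat.succ_ne_zero n⟩
  have h1 := hC (FiniteField.Extension k p (n + 1))
  have hq : 1 < Nat.card k := Finite.one_lt_card
  have h2 : n + 1 < Nat.card k ^ (n + 1) := Nat.lt_pow_self hq
  rw [map_one, abs_one, FiniteField.natCard_extension, zpow_neg, zpow_one] at h1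
  have h3 : (0 : ℚ) < ((Nat.card k ^ (n + 1) : ℕ) : ℚ) := by
    exact_mod_cast (Nat.zero_lt_succ n).trans h2
  rw [← div_eq_mul_inv, le_div_iff₀ h3, one_mul] at h1
  have h4 : ((n + 1 : ℕ) : ℚ) < ((Nat.card k ^ (n + 1) : ℕ) : ℚ) := by exact_mod_cast h2
  push_cast at h1 h4
  linarith

end Pool.Agent.H519R3.K0V
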