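import Pool.Agent.H519R3.K0V.Cover

set_option autoImplicit false

open AlgebraicGeometry CategoryTheory Limits

namespace Pool.Agent.H519R3.K0V

variable {k : Type} [Field k] (F : Type) [Field F] [Algebra k F]

/-- The `F`-valued points of a variety. -/
noncomputable def Pts (X : Variety k) : Type :=
  {f : Spec (CommRingCat.of F) ⟶ X.X // f ≫ X.str = Spec.map (CommRingCat.ofHom (algebraMap k F))}

variable {F}

/-- The map on points. -/
noncomputable def Pts.map {X Y : Variety k} (g : X.X ⟶ Y.X) (hg : g ≫ Y.str = X.str) (x : Pts F X) : Pts F Y :=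
  ⟨x.1 ≫ g, by rw [Category.assoc, hg, x.2]⟩

theorem Pts.map_injective {X Y : Variety k} (g : X.X ⟶ Y.X) [Mono g] (hg : g ≫ Y.str = X.str) :
    Function.Injective (Pts.map (F := F) g hg) := by
  intro x y h
  apply Subtype.ext
  have := congrArg Subtype.val h
  exact (cancel_mono g).1 this

instance : Subsingleton (Spec (CommRingCat.of F)) :=
  inferInstanceAs (Subsingleton (PrimeSpectrum F))

noncomputable instance : Inhabited (Spec (CommRingCat.of F)) :=
  ⟨(default : PrimeSpectrum F)⟩

theorem range_eq_of_point {X : Scheme.{0}} (f : Spec (CommRingCat.of F) ⟶ X) :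
    Set.range f = {f default} := by
  ext x
  constructor
  · rintro ⟨y, rfl⟩
    rw [Subsingleton.elim y default]
    rfl
  · rintro rfl
    exact ⟨default, rfl⟩

/-- A point which lands in a closed subscheme factors. -/
theorem exists_lift_closed {Z X : Scheme.{0}} (i : Z ⟶ X) [IsClosedImmersion i]
    (f : Spec (CommRingCat.of F) ⟶ X) (h : f default ∈ Set.range i) :
    ∃ g : Spec (CommRingCat.of F) ⟶ Z, g ≫ i = f := by
  let p := pullback.fst f i
  have h1 : IsClosedImmersion p := inferInstance
  have h2 : Surjective p := by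
    constructor
    intro y
    obtain ⟨z, hz⟩ := h
    have hy : y = default := Subsingleton.elim _ _
    have := Scheme.Pullback.range_fst f i
    have hmem : y ∈ Set.range (pullback.fst f i) := by
      rw [Scheme.Pullback.range_fst]
      rw [hy]
      exact ⟨z, hz⟩
    exact hmem
  have h3 : IsReduced (Spec (CommRingCat.of F)) := inferInstance
  have h4 : IsIso p := isIso_of_isClosedImmersion_of_surjective p
  refine ⟨inv p ≫ pullback.snd f i, ?_⟩
  rw [Category.assoc, ← pullback.condition]
  simp [p]

/-- A point which lands in an open subscheme factors. -/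
theorem exists_lift_open {U X : Scheme.{0}} (j : U ⟶ X) [IsOpenImmersion j]
    (f : Spec (CommRingCat.of F) ⟶ X) (h : f default ∈ Set.range j) :
    ∃ g : Spec (CommRingCat.of F) ⟶ U, g ≫ j = f := by
  refine ⟨IsOpenImmersion.lift j f ?_, IsOpenImmersion.lift_fac _ _ _⟩
  rw [range_eq_of_point]
  exact Set.singleton_subset_iff.2 h

section affine

variable (k) (A : Type) [CommRing A] [Algebra k A] [Algebra.FiniteType k A]

/-- Points of an affine variety. -/
noncomputable def ptsSpec : Pts F (specVar k A) ≃ (A →ₐ[k] F) where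
  toFun f :=
    { (Spec.preimage f.1).hom with
      commutes' := by
        intro r
        have h := f.2
        have h2 : f.1 = Spec.map (Spec.preimage f.1) := (Spec.map_preimage _).symm
        rw [h2] at h
        change Spec.map (Spec.preimage f.1) ≫ Spec.map (CommRingCat.ofHom (algebraMap k A)) = _ at h
        rw [← Spec.map_comp] at h
        have h3 := Spec.map_injective h
        have h4 := congrArg (fun φ : CommRingCat.of k ⟶ CommRingCat.of F => φ.hom r) h3
        exact h4 }
  invFun g := ⟨Spec.map (CommRingCat.ofHom (g : A →+* F)), by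
    change Spec.map (CommRingCat.ofHom (g : A →+* F)) ≫
      Spec.map (CommRingCat.ofHom (algebraMap k A)) = _
    rw [← Spec.map_comp, ← CommRingCat.ofHom_comp, AlgHom.comp_algebraMap]⟩
  left_inv f := by
    apply Subtype.ext
    have h2 : Spec.map (Spec.preimage f.1) = f.1 := Spec.map_preimage _
    exact h2
  right_inv g := by
    ext a
    have : Spec.preimage (Spec.map (CommRingCat.ofHom (g : A →+* F))) =
      CommRingCat.ofHom (g : A →+* F) := Spec.preimage_map _
    change (Spec.preimage (Spec.map (CommRingCat.ofHom (g : A →+* F)))).hom a = g a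
    rw [this]
    rfl

end affine

instance finite_algHom (k A F : Type) [Field k] [Field F] [Finite F] [CommRing A] [Algebra k A]
    [Algebra k F] [h : Algebra.FiniteType k A] : Finite (A →ₐ[k] F) := by
  obtain ⟨n, f, hf⟩ := Algebra.FiniteType.iff_quotient_mvPolynomial''.1 h
  refine Finite.of_injective
    (fun (φ : A →ₐ[k] F) => fun i : Fin n => φ (f (MvPolynomial.X i))) ?_
  intro φ ψ hφψ
  have h1 : φ.comp f = ψ.comp f := by
    apply MvPolynomial.algHom_ext
    intro i
    exact congrFun hφψ i
  ext a
  obtain ⟨b, rfl⟩ := hf a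
  exact DFunLike.congr_fun h1 b

/-- Points of `X` come from points of the charts. -/
theorem exists_chart_point {X : Variety k} {ι : Type} (c : ι → Chart X)
    (hc : ∀ x : X.X, ∃ i, x ∈ Set.range (c i).g) (x : Pts F X) :
    ∃ i, ∃ y : Pts F (specVar k (c i).A), Pts.map (c i).g (c i).hg y = x := by
  obtain ⟨i, hi⟩ := hc (x.1 default)
  obtain ⟨g, hg⟩ := exists_lift_open (c i).g x.1 hi
  have h1 : g ≫ Spec.map (CommRingCat.ofHom (algebraMap k (c i).A)) =
      Spec.map (CommRingCat.ofHom (algebraMap k F)) := by
    rw [← (c i).hg, ← Category.assoc, hg, x.2]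
  exact ⟨i, ⟨g, h1⟩, Subtype.ext hg⟩

instance finite_pts [Finite F] (X : Variety k) : Finite (Pts F X) := by
  obtain ⟨ι, hι, c, hc⟩ := exists_charts X
  have h1 : ∀ i, Finite (Pts F (specVar k (c i).A)) := fun i =>
    Finite.of_equiv _ (ptsSpec k (c i).A).symm
  refine Finite.of_surjective
    (fun x : (Σ i, Pts F (specVar k (c i).A)) => Pts.map (c x.1).g (c x.1).hg x.2) ?_
  intro x
  obtain ⟨i, y, hy⟩ := exists_chart_point c hc x
  exact ⟨⟨i, y⟩, hy⟩

variable (F)

/-- The number of points. -/
noncomputable def npts (X : Variety k) : ℕ := Nat.card (Pts F X)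

theorem npts_iso {X Y : Variety k} (e : X.X ≅ Y.X) (h : e.hom ≫ Y.str = X.str) :
    npts F X = npts F Y := by
  refine Nat.card_congr ⟨Pts.map e.hom h, Pts.map e.inv (by rw [← h]; simp), ?_, ?_⟩
  · intro x
    exact Subtype.ext (by simp [Pts.map])
  · intro x
    exact Subtype.ext (by simp [Pts.map])

theorem npts_scissors [Finite F] {X Z U : Variety k} (i : Z.X ⟶ X.X) (j : U.X ⟶ X.X)
    (hi : IsClosedImmersion i) (hj : IsOpenImmersion j) (hik : i ≫ X.str = Z.str)
    (hjk : j ≫ X.str = U.str) (h : Set.range j = (Set.range i)ᶜ) :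
    npts F X = npts F Z + npts F U := by
  have e : Pts F Z ⊕ Pts F U ≃ Pts F X := by
    refine Equiv.ofBijective (Sum.elim (Pts.map i hik) (Pts.map j hjk)) ⟨?_, ?_⟩
    · have hdisj : ∀ (x : Pts F Z) (y : Pts F U), Pts.map i hik x ≠ Pts.map j hjk y := by
        intro x y hxy
        have h1 : (x.1 ≫ i) default = (y.1 ≫ j) default := by
          rw [show x.1 ≫ i = y.1 ≫ j from congrArg Subtype.val hxy]
        have h2 : (y.1 ≫ j) default ∈ Set.range j := ⟨y.1 default, by simp⟩
        rw [h, ← h1] at h2
        exact h2 ⟨x.1 default, by simp⟩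
      rintro (x | x) (y | y) hxy
      · exact congrArg Sum.inl (Pts.map_injective i hik hxy)
      · exact absurd hxy (hdisj x y)
      · exact absurd hxy.symm (hdisj y x)
      · exact congrArg Sum.inr (Pts.map_injective j hjk hxy)
    · intro x
      by_cases hx : x.1 default ∈ Set.range i
      · obtain ⟨g, hg⟩ := exists_lift_closed i x.1 hx
        exact ⟨Sum.inl ⟨g, by rw [← hik, ← Category.assoc, hg, x.2]⟩, Subtype.ext hg⟩
      · have hx' : x.1 default ∈ Set.range j := by
          rw [h]; exact hx
        obtain ⟨g, hg⟩ := exists_lift_open j x.1 hx'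
        exact ⟨Sum.inr ⟨g, by rw [← hjk, ← Category.assoc, hg, x.2]⟩, Subtype.ext hg⟩
  unfold npts
  rw [← Nat.card_congr e, Nat.card_sum]

theorem npts_prod {P X Y : Variety k} (p : P.X ⟶ X.X) (q : P.X ⟶ Y.X)
    (h : IsPullback p q X.str Y.str) (hp : p ≫ X.str = P.str) :
    npts F P = npts F X * npts F Y := by
  unfold npts
  rw [← Nat.card_prod]
  have hq : q ≫ Y.str = P.str := by rw [← h.w, hp]
  refine Nat.card_congr ⟨fun x => (Pts.map p hp x, Pts.map q hq x),
    fun x => ⟨h.lift x.1.1 x.2.1 (by rw [x.1.2, x.2.2]), by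
      rw [← hp, ← Category.assoc, h.lift_fst, x.1.2]⟩, ?_, ?_⟩
  · intro x
    apply Subtype.ext
    apply h.hom_ext
    · rw [h.lift_fst]; rfl
    · rw [h.lift_snd]; rfl
  · intro x
    refine Prod.ext (Subtype.ext ?_) (Subtype.ext ?_)
    · exact h.lift_fst _ _ _
    · exact h.lift_snd _ _ _

theorem npts_point (X : Variety k) (h : IsIso X.str) : npts F X = 1 := by
  unfold npts
  rw [Nat.card_eq_one_iff_unique]
  constructor
  · constructor
    intro x y
    apply Subtype.ext
    rw [← cancel_mono X.str, x.2, y.2]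
  · exact ⟨⟨Spec.map (CommRingCat.ofHom (algebraMap k F)) ≫ inv X.str, by simp⟩⟩

/-- Counting points is a ring homomorphism. -/
noncomputable def countHom [Finite F] : K0 k →+* ℚ :=
  liftRing (fun X => (npts F X : ℚ))
    (fun X Y e h => by rw [npts_iso F e h])
    (fun X Z U i j hi hj hik hjk h => by
      rw [npts_scissors F i j hi hj hik hjk h]; push_cast; rfl)
    (fun P X Y p q h hp => by rw [npts_prod F p q h hp]; push_cast; rfl)
    (fun X h => by rw [npts_point F X h]; simp)

theorem countHom_cls [Finite F] (X : Variety k) : countHom F (cls X) = npts F X :=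
  liftRing_cls _ _ _ _ _ X

theorem npts_lef [Finite F] : npts F (specVar k (Polynomial k)) = Nat.card F := by
  unfold npts
  rw [Nat.card_congr (ptsSpec k (Polynomial k))]
  exact Nat.card_congr ⟨fun φ => φ Polynomial.X, fun a => Polynomial.aeval a,
    fun φ => by ext; simp, fun a => by simp⟩

end Pool.Agent.H519R3.K0V
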