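import Pool.Agent.H519R3.K0V.Measure

set_option autoImplicit false

open AlgebraicGeometry CategoryTheory Limits Filter Topology

namespace Pool.Agent.H519R3.K0V

variable (k : Type) [Field k]

/-- The dimension filtration is a basis of neighbourhoods of zero for a ring topology. -/
theorem basis : RingSubgroupsBasis (Fil k) := by
  refine RingSubgroupsBasis.of_comm _ (fun i j => ⟨max i j, le_inf (Fil_antitone (le_max_left _ _))
    (Fil_antitone (le_max_right _ _))⟩) (fun i => ⟨|i|, ?_⟩) (fun x i => ?_)
  · rintro _ ⟨a, ha, b, hb, rfl⟩
    refine Fil_antitone ?_ (mul_mem_Fil ha hb)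
    have h1 := abs_nonneg i
    have h2 := le_abs_self i
    omega
  · obtain ⟨m, hm⟩ := exists_mem_Fil x
    refine ⟨i - m, fun y hy => ?_⟩
    have h := mul_mem_Fil hm hy
    rwa [add_sub_cancel] at h

/-- The topology of the dimension filtration: the subgroups `F_m` are a basis of the neighbourhoods
of zero. -/
@[instance_reducible]
noncomputable def motTopology : TopologicalSpace (Mot k) := (basis k).topology

theorem isTopologicalRing_mot : letI := motTopology k; IsTopologicalRing (Mot k) :=
  (basis k).toRingFilterBasis.isTopologicalRing

theorem isTopologicalAddGroup_mot : @IsTopologicalAddGroup (Mot k) (motTopology k) _ :=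
  letI := motTopology k
  haveI := isTopologicalRing_mot k
  inferInstance

/-- The uniform structure of the topological group `K₀(Var_k)[L⁻¹]`. -/
noncomputable instance instUniformSpaceMot : UniformSpace (Mot k) :=
  @IsTopologicalAddGroup.rightUniformSpace (Mot k) _ (motTopology k) (isTopologicalAddGroup_mot k)

instance : IsTopologicalRing (Mot k) := isTopologicalRing_mot k

instance : IsUniformAddGroup (Mot k) :=
  letI := motTopology k
  haveI := isTopologicalRing_mot k
  isUniformAddGroup_of_addCommGroup

/-- The completion of `K₀(Var_k)[L⁻¹]` for the dimension filtration. -/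
def MotHat : Type 1 := UniformSpace.Completion (Mot k)

noncomputable instance instCommRingMotHat : CommRing (MotHat k) :=
  (inferInstance : CommRing (UniformSpace.Completion (Mot k)))

noncomputable instance instTopologicalSpaceMotHat : TopologicalSpace (MotHat k) :=
  (inferInstance : TopologicalSpace (UniformSpace.Completion (Mot k)))

instance : IsTopologicalRing (MotHat k) :=
  (inferInstance : IsTopologicalRing (UniformSpace.Completion (Mot k)))

instance : T2Space (MotHat k) :=
  (inferInstance : T2Space (UniformSpace.Completion (Mot k)))

/-- The map to the completion. -/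
noncomputable def toHat : Mot k →+* MotHat k :=
  (UniformSpace.Completion.coeRingHom : Mot k →+* UniformSpace.Completion (Mot k))

theorem hasBasis_nhds_zero :
    HasBasis (𝓝 (0 : Mot k)) (fun _ : ℤ => True) (fun i => (Fil k i : Set (Mot k))) :=
  (basis k).hasBasis_nhds_zero

theorem continuous_toHat : Continuous (toHat k) :=
  UniformSpace.Completion.continuous_coe (Mot k)

theorem tendsto_toHat {u : ℕ → Mot k} {x : Mot k}
    (h : Tendsto (fun a => toHat k (u a)) atTop (𝓝 (toHat k x))) :
    Tendsto u atTop (𝓝 x) := by
  have h1 := (UniformSpace.Completion.isUniformInducing_coe (Mot k)).isInducing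
  rw [h1.tendsto_nhds_iff]
  exact h

/-- The class of a variety in the completed ring. -/
noncomputable def hcls {k : Type} [Field k] (X : Variety k) : MotHat k := toHat k (mcls X)

end Pool.Agent.H519R3.K0V
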